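import Mathlib
import Pool.Agent.Helper89K9.TK.All
import Pool.Agent.Helper89K9.TK.Pieces

set_option autoImplicit false

/-!
# For almost all `k` the `3x+k` map has few classes of merging orbits, and long complex cycles

If a prime `q` divides `k` and divides no number `2 ^ p - 3 ^ o` with `o ≤ p ≤ L`, then `L + 1`
consecutive terms of an orbit outside `q ℤ` are distinct modulo `q`; all but `L ^ 3` primes have this
property. So an orbit which returns often to `[-1000 |k|, 1000 |k|]` occupies many of these integers, and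
there are few of them. The other orbits pass through an integer `x` whose next parities contain many odd
terms; as the pairs `(x, k)`, `k` prime, not dividing `x`, are determined by `log (2 X K) / log 2` of their
parities, there are few of them for almost all primes `k`.
-/

namespace Pool.Agent.Results.MP_7f88e4_nt.FewClasses

/-- the `3x+k` map on the integers -/
def T (k x : ℤ) : ℤ := if x % 2 = 0 then x / 2 else (3 * x + k) / 2

/-- The orbits of `x` and `y` under the `3x+k` map merge. -/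
def Merge (k x y : ℤ) : Prop := ∃ i j : ℕ, (T k)^[i] x = (T k)^[j] y

/-- At most `B` classes of merging orbits of the `3x+k` map meet `[-X, X]`: a set of integers in
`[-X, X]` whose orbits never merge has at most `B` elements. -/
def FewClasses (k : ℤ) (X B : ℝ) : Prop :=
  ∀ S : Finset ℤ, (∀ x ∈ S, |(x : ℝ)| ≤ X) → (∀ x ∈ S, ∀ y ∈ S, Merge k x y → x = y) →
    (S.card : ℝ) ≤ B

/-- The factor `w a, w (a+1), ..., w (b-1)` of the sequence `w` has period `π`. -/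
def HasPeriod (w : ℕ → ℤ) (π a b : ℕ) : Prop := ∀ j, a ≤ j → j + π < b → w (j + π) = w j

/-- The word `w 0, w 1, ..., w (n-1)` is a concatenation of `m` words (cut at `0 = t 0 ≤ t 1 ≤ ... ≤
t m = n`), each of which has some period `π` with `1 ≤ π ≤ ℓ`. -/
def Splits (w : ℕ → ℤ) (ℓ m n : ℕ) : Prop :=
  ∃ t : ℕ → ℕ, t 0 = 0 ∧ t m = n ∧ (∀ i < m, t i ≤ t (i + 1)) ∧
    ∀ i < m, ∃ π, 1 ≤ π ∧ π ≤ ℓ ∧ HasPeriod w π (t i) (t (i + 1))

open Pool.Agent.Helper89K9 in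
theorem result :
    -- prime `k`
    (∃ C : ℝ, 0 < C ∧ ∀ η : ℝ, 0 < η → η ≤ 1 / 2 → ∃ E : Set ℕ,
      (∀ K : ℕ, 1 ≤ K → ((E ∩ Set.Iic K).ncard : ℝ) ≤ C * (K : ℝ) ^ (1 - η)) ∧
      -- no close returns modulo `k`, and few classes
      (∀ k : ℤ, k.natAbs.Prime → 5 ≤ k.natAbs → k.natAbs ∉ E →
        (∀ x : ℤ, ¬ k ∣ x → ∀ i j : ℕ, i < j → (j : ℝ) ≤ i + |(k : ℝ)| ^ ((1 - η) / 3) →
          ¬ (T k)^[i] x ≡ (T k)^[j] x [ZMOD k]) ∧
        ∀ X : ℝ, |(k : ℝ)| ≤ X →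
          FewClasses k X (120000 * |(k : ℝ)| ^ (902 / 1000 + η) * (X / |(k : ℝ)|) ^ (952 / 1000 : ℝ))) ∧
      -- the cycles are complex
      ∀ c θ : ℝ, 0 < c → 0 < θ → θ < (1 - η) / 3 → ∃ A : ℝ, ∀ k : ℤ, k.natAbs.Prime →
        5 ≤ k.natAbs → k.natAbs ∉ E → ∀ (x : ℤ) (p m ℓ : ℕ), ¬ k ∣ x → 1 ≤ p → (T k)^[p] x = x →
          (∀ j, 1 ≤ j → j < p → (T k)^[j] x ≠ x) → (ℓ : ℝ) ≤ |(k : ℝ)| ^ θ →
          Splits (fun i => (T k)^[i] x % 2) ℓ m p → c * Real.log |(k : ℝ)| ≤ m + A) ∧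
    -- all `k` outside a set of density at most `δ`
    (∀ δ : ℝ, 0 < δ → ∃ c C : ℝ, 0 < c ∧ 0 < C ∧ ∃ E : Set ℕ,
      (∀ K : ℕ, ((E ∩ Set.Icc 1 K).ncard : ℝ) ≤ δ * K) ∧
      ∀ k : ℤ, (k % 6 = 1 ∨ k % 6 = 5) → k.natAbs ∉ E →
        ∀ X : ℝ, |(k : ℝ)| ≤ X → FewClasses k X (C * X ^ (1 - c))) := by
  refine ⟨?_, fun δ hδ => TK.almost_all hδ⟩
  obtain ⟨C, hC, h⟩ := TK.exc_card
  refine ⟨C, hC, fun η hη hη2 => ⟨TK.Exc η, h η hη hη2, ?_, ?_⟩⟩
  · intro k hk h5 hE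
    refine ⟨fun x hx i j hij hj => TK.prime_returns hη2 hk h5 hE hx hij hj,
      fun X hX => TK.prime_few' hη hη2 hk h5 hE hX⟩
  · intro c θ hc hθ hθ2
    exact TK.prime_pieces hη2 hc hθ hθ2

end Pool.Agent.Results.MP_7f88e4_nt.FewClasses
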