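import Mathlib
import Pool.Agent.Helper69K9.PS.Low
import Pool.Agent.TH930.PS.Three

set_option autoImplicit false

/-!
# The orbits of the numbers `⌊n ^ c⌋` under the `3x+k` maps

Let `1 < c < 101/100`. From the time `log X` on, the orbits of the integers `± ⌊n ^ c⌋`, `n ≤ X`, under the
`3x+k` map are distributed as the orbits of all integers: for every bounded function `F` on the integers
such that `F x` depends only on the `j`-th iterate of `x`, where `j ≥ log X` (for example the indicator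
function of the `x` for which the `j`-th iterate of `x` is in a given set of integers, or of an invariant
set), the sum of the `F (s ⌊n ^ c⌋)`, `n ≤ X`, is the sum of `((m + 1) ^ (1 / c) - m ^ (1 / c)) F (s m)` over
all `m ≤ X ^ c`, with an error term `K k ^ 2 X ^ (1 - 1 / 4000)` where `K` depends on `c` only. The same
holds for the sums twisted by `e(θ ⌊n ^ c⌋)`, `θ` any real number, and for the sums over the `n` with
`⌊n ^ c⌋` in any progression. In particular almost all orbits of the `± ⌊n ^ c⌋` take almost bounded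
values: all but `O(X / y ^ ρ)` of the `n ≤ X` have an orbit with a term in `[-y, y]`. If `k` is prime to `6` the invariant sets are therefore counted by their local
densities modulo `k` among the `± ⌊n ^ c⌋` in a progression, and it is enough to prove that the orbits of
almost all `± ⌊n ^ c⌋` in progressions are eventually periodic.

Method. As for `k = 1` (starting file MP_d02c56_nt.PiatetskiShapiro): the fibres of the `t`-th iterate of the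
map among the integers with a typical number of odd terms, `t ≤ log X`; Cauchy-Schwarz; the pairs `m`,
`m + h` in one fibre depend only on `m` modulo `2 ^ t`, and `e(l (m ^ γ - (m + h) ^ γ))`, `γ = 1 / c`, is summed
over the `m ≡ r` modulo `2 ^ t` by the inequality of Kusmin and Landau; a linear phase only changes this
sum by a constant factor. The sawtooth function is replaced by trigonometric polynomials of degree
`N ^ (2 (1 - γ) + 1 / 2000)`. For the constant `k` the offsets of the affine maps are multiples of `k`; they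
are used up to `N ^ (1 / 100)`, and for larger `k` the error term is trivial. For the almost bounded values
the power tail for the orbits of all integers (TH930.PS.Three) is used for the terms after the time `log X`
of the orbits, which are not yet small before this time. The local densities in
progressions to moduli up to a small power of `X` are from MP_7f88e4_nt.SiftedProgressions.
-/

namespace Pool.Agent.Results.MP_7f88e4_nt.PiatetskiShapiroProgressions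

open Filter Topology

/-- the `3x+k` map on the integers -/
def T (k x : ℤ) : ℤ := if x % 2 = 0 then x / 2 else (3 * x + k) / 2

/-- the orbit of `n` is eventually periodic -/
def EvPer (k n : ℤ) : Prop := ∃ m p : ℕ, 1 ≤ p ∧ (T k)^[m + p] n = (T k)^[m] n

/-- `S` is invariant under the `3x+k` map and its inverse -/
def Invariant (k : ℤ) (S : Set ℤ) : Prop := ∀ x : ℤ, x ∈ S ↔ T k x ∈ S

/-- `F` has absolute value at most `1`, and `F x` depends only on the `j`-th iterate of `x` under the `3x+k`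
map, that is, on the orbit of `x` from the time `j` on. -/
def Late (k : ℤ) (j : ℕ) (F : ℤ → ℝ) : Prop :=
  (∀ x, |F x| ≤ 1) ∧ ∀ x y : ℤ, (T k)^[j] x = (T k)^[j] y → F x = F y

/-- `exp (2 π i x)` -/
noncomputable def e (x : ℝ) : ℂ := Complex.exp (2 * Real.pi * x * Complex.I)

/-- `a` and `b` agree modulo `k` up to a factor `2 ^ i * 3 ^ j`. -/
def Rel (k a b : ℤ) : Prop := ∃ i j : ℕ, a ≡ 2 ^ i * 3 ^ j * b [ZMOD k]

/-- `φ` gives the densities of `S`, on the side `s`, relative to the classes modulo `k`: it has values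
in `[0, 1]`, it depends only on the residue modulo `k` up to factors `2` and `3`, the elements of `S`
which are congruent to `a` modulo `k` have natural density `φ a / |k|` on the side `s`, and `φ a` is
positive if `S` has an element of sign `s` prime to `3` in a class related to that of `a`. -/
def LocalDensity (k s : ℤ) (S : Set ℤ) (φ : ℤ → ℝ) : Prop :=
  (∀ a : ℤ, 0 ≤ φ a ∧ φ a ≤ 1) ∧ (∀ a b : ℤ, Rel k a b → φ a = φ b) ∧
  (∀ a : ℤ, Tendsto (fun N : ℕ => ({n : ℤ | 0 < s * n ∧ s * n ≤ N ∧ n ∈ S ∧ n ≡ a [ZMOD k]}.ncard : ℝ) / N)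
    atTop (𝓝 (φ a / k.natAbs))) ∧
  (∀ a x : ℤ, x ∈ S → 0 < s * x → ¬ (3 : ℤ) ∣ x → Rel k a x → 0 < φ a)

/-- The density of the sequence `⌊n ^ c⌋` at `m`. -/
noncomputable def weight (c : ℝ) (m : ℕ) : ℝ := ((m : ℝ) + 1) ^ (1 / c) - (m : ℝ) ^ (1 / c)

/-- The integers `n` in `[1, X]` for which `⌊n ^ c⌋` is congruent to `a` modulo `q`. -/
noncomputable def prog (c : ℝ) (q : ℕ) (a : ℤ) (X : ℕ) : Finset ℕ :=
  (Finset.Icc 1 X).filter (fun n : ℕ => ⌊(n : ℝ) ^ c⌋ ≡ a [ZMOD q])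

/-- The number of the `n` in `[1, X]` with `⌊n ^ c⌋ ≡ a` modulo `q` and `s ⌊n ^ c⌋ ∈ S`. -/
noncomputable def count (s : ℤ) (c : ℝ) (q : ℕ) (a : ℤ) (S : Set ℤ) (X : ℕ) : ℕ :=
  {n : ℕ | 1 ≤ n ∧ n ≤ X ∧ ⌊(n : ℝ) ^ c⌋ ≡ a [ZMOD q] ∧ s * ⌊(n : ℝ) ^ c⌋ ∈ S}.ncard

/-! ### proofs -/

open Pool.Agent.W41 Pool.Agent.H499R2.ND Pool.Agent.W36.FD Pool.Agent.Helper82K9.GK Pool.Agent.Y965.PS
  Pool.Agent.Helper82K9.PM Pool.Agent.Helper69K9.PS Finset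

theorem late_side {k : ℤ} (hk : Odd k) {s : ℤ} (hs : s = 1 ∨ s = -1) {j : ℕ} {F : ℤ → ℝ} (hF : Late k j F) :
    SyncAt (s * k) j (fun x => F (s * x)) := by
  refine ⟨fun x => hF.1 _, fun x y h => hF.2 _ _ ?_⟩
  have hss : s * s = 1 := by rcases hs with rfl | rfl <;> norm_num
  have e1 : ∀ x : ℤ, s * (Td (s * k))^[j] x = (Td k)^[j] (s * x) := by
    intro x
    rw [Td_side hk hs j x, ← mul_assoc, hss, one_mul]
  have h' : (Td (s * k))^[j] x = (Td (s * k))^[j] y := h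
  have h1 := e1 x
  rw [h', e1 y] at h1
  exact h1.symm

theorem sq_side {s : ℤ} (hs : s = 1 ∨ s = -1) (k : ℤ) : (((s * k : ℤ)) : ℝ) ^ 2 = (k : ℝ) ^ 2 := by
  rcases hs with rfl | rfl
  · push_cast; ring
  · push_cast; ring

theorem nk_e (t : ℝ) : Pool.Agent.H469R2.NK.e t = e t := by
  unfold Pool.Agent.H469R2.NK.e e
  push_cast
  rfl

/-- the transfer inequalities -/
theorem transfer {c : ℝ} (hc : 1 < c) (hc' : c < 101 / 100) : ∃ K : ℝ, ∀ k : ℤ, k % 2 = 1 → ∀ s : ℤ, (s = 1 ∨ s = -1) →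
    ∀ X j : ℕ, 1 ≤ X → Real.log X ≤ j → ∀ F : ℤ → ℝ, Late k j F →
    (∀ θ : ℝ, ‖∑ n ∈ Finset.Icc 1 X, (F (s * ⌊(n : ℝ) ^ c⌋) : ℂ) * e (θ * ⌊(n : ℝ) ^ c⌋)
      - ∑ m ∈ Finset.Icc 1 ⌊(X : ℝ) ^ c⌋₊, ((weight c m * F (s * m) : ℝ) : ℂ) * e (θ * m)‖
      ≤ K * (k : ℝ) ^ 2 * (X : ℝ) ^ (1 - 1 / 4000 : ℝ)) ∧
    ∀ q : ℕ, 1 ≤ q → ∀ a : ℤ, |∑ n ∈ prog c q a X, F (s * ⌊(n : ℝ) ^ c⌋)
      - ∑ m ∈ (Finset.Icc 1 ⌊(X : ℝ) ^ c⌋₊).filter (fun m : ℕ => (m : ℤ) ≡ a [ZMOD q]), weight c m * F (s * m)|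
      ≤ K * (k : ℝ) ^ 2 * (X : ℝ) ^ (1 - 1 / 4000 : ℝ) := by
  obtain ⟨K1, hK1, H1⟩ := trans_at hc hc'
  obtain ⟨K2, hK2, H2⟩ := trans_phase hc hc'
  refine ⟨K1 + K2, fun k hk s hs X j hX hj F hF => ?_⟩
  have hsk : (s * k) % 2 = 1 := by rcases hs with rfl | rfl <;> omega
  have hS := late_side (Int.odd_iff.2 hk) hs hF
  have hp : (0 : ℝ) ≤ (k : ℝ) ^ 2 * (X : ℝ) ^ (1 - 1 / 4000 : ℝ) := by positivity
  constructor
  · intro θ
    have h1 := H2 (s * k) hsk X j hX hj _ hS θ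
    rw [sq_side hs] at h1
    simp only [nk_e] at h1
    refine h1.trans ?_
    rw [mul_assoc, mul_assoc]
    exact mul_le_mul_of_nonneg_right (by linarith) hp
  · intro q hq a
    have h1 := H1 (s * k) hsk X j hX hj _ hS q hq a
    rw [sq_side hs] at h1
    have e1 : ∑ n ∈ prog c q a X, F (s * ⌊(n : ℝ) ^ c⌋) =
        ∑ n ∈ Icc 1 X, (if ⌊(n : ℝ) ^ c⌋ ≡ a [ZMOD q] then (fun x => F (s * x)) ⌊(n : ℝ) ^ c⌋ else 0) := by
      unfold prog
      rw [sum_filter]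
    have e2 : ∑ m ∈ (Finset.Icc 1 ⌊(X : ℝ) ^ c⌋₊).filter (fun m : ℕ => (m : ℤ) ≡ a [ZMOD q]), weight c m * F (s * m) =
        ∑ m ∈ Icc 1 ⌊(X : ℝ) ^ c⌋₊, (((m : ℝ) + 1) ^ (1 / c) - (m : ℝ) ^ (1 / c)) *
          (if (m : ℤ) ≡ a [ZMOD q] then (fun x => F (s * x)) (m : ℤ) else 0) := by
      rw [sum_filter]
      apply sum_congr rfl
      intro m _
      unfold weight
      split_ifs
      · rfl
      · rw [mul_zero]
    rw [e1, e2]
    refine h1.trans ?_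
    rw [mul_assoc, mul_assoc]
    exact mul_le_mul_of_nonneg_right (by linarith) hp

theorem dens_iff {k s : ℤ} (hs : s = 1 ∨ s = -1) {S : Set ℤ} {φ : ℤ → ℝ} :
    Pool.Agent.W36.FD.DD s S k.natAbs (fun c => φ c / (k.natAbs : ℝ)) ↔
    (∀ a : ℤ, Tendsto (fun N : ℕ => ({n : ℤ | 0 < s * n ∧ s * n ≤ N ∧ n ∈ S ∧ n ≡ a [ZMOD k]}.ncard : ℝ) / N)
      atTop (𝓝 (φ a / k.natAbs))) := by
  have e1 : ∀ (a : ℤ) (N : ℕ), {n : ℤ | 0 < s * n ∧ s * n ≤ N ∧ n ∈ S ∧ n ≡ a [ZMOD k]}.ncard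
      = cA s S k.natAbs a N := by
    intro a N
    rw [← cA_ncard hs]
    congr 1
    ext n
    have : n ≡ a [ZMOD k] ↔ n ≡ a [ZMOD (k.natAbs : ℤ)] := by
      rw [Int.modEq_iff_dvd, Int.modEq_iff_dvd, Int.natAbs_dvd]
    simp only [Set.mem_ofPred_eq, this]
  unfold Pool.Agent.W36.FD.DD
  simp only [e1]

theorem local_phi {k s : ℤ} (hs : s = 1 ∨ s = -1) {S : Set ℤ} {φ : ℤ → ℝ} (h : LocalDensity k s S φ) :
    IsPhi k s S φ := ⟨h.1, h.2.1, (dens_iff hs).2 h.2.2.1⟩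

theorem exists_local {k : ℤ} (hk : k % 6 = 1 ∨ k % 6 = 5) {s : ℤ} (hs : s = 1 ∨ s = -1) {S : Set ℤ}
    (hS : Invariant k S) : ∃ φ : ℤ → ℝ, LocalDensity k s S φ := by
  obtain ⟨φ, ⟨h1, h2, h3⟩, h4⟩ := exists_phi hk hs (S := S) hS
  exact ⟨φ, h1, h2, (dens_iff hs).1 h3, h4⟩

theorem evper_inv (k : ℤ) : Invariant k {n | EvPer k n} := by
  intro x
  constructor
  · rintro ⟨m, p, hp, h⟩
    refine ⟨m, p, hp, ?_⟩
    rw [← Function.iterate_succ_apply, ← Function.iterate_succ_apply,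
      Function.iterate_succ_apply', Function.iterate_succ_apply', h]
  · rintro ⟨m, p, hp, h⟩
    refine ⟨m + 1, p, hp, ?_⟩
    rw [← Function.iterate_succ_apply, ← Function.iterate_succ_apply] at h
    rw [show m + 1 + p = (m + p).succ by omega]
    exact h

/-- every nonzero orbit reaches a nonzero number prime to `3` -/
theorem reaches_cop {k : ℤ} (hk : k % 6 = 1 ∨ k % 6 = 5) {x : ℤ} (hx : x ≠ 0) :
    ∃ j : ℕ, (T k)^[j] x ≠ 0 ∧ ¬ (3 : ℤ) ∣ (T k)^[j] x := by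
  obtain ⟨e, y, hy, hxy⟩ : ∃ (e : ℕ) (y : ℤ), y % 2 = 1 ∧ x = 2 ^ e * y := by
    obtain ⟨n, hn⟩ : ∃ n : ℕ, n = x.natAbs := ⟨_, rfl⟩
    induction n using Nat.strong_induction_on generalizing x with
    | _ n ih =>
      rcases Int.emod_two_eq_zero_or_one x with h | h
      · obtain ⟨e, y, hy, hxy⟩ := ih (x / 2).natAbs (by omega) (x := x / 2) (by omega) rfl
        refine ⟨e + 1, y, hy, ?_⟩
        have : x = 2 * (x / 2) := by omega
        rw [this, hxy, pow_succ]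
        ring
      · exact ⟨0, x, h, by simp⟩
  refine ⟨e + 1, ?_⟩
  have h1 : (T k)^[e] x = y := by
    rw [hxy]
    exact Td_two_pow k e y
  rw [Function.iterate_succ_apply', h1]
  unfold T
  rw [if_neg (by omega)]
  have h2 : 2 * ((3 * y + k) / 2) = 3 * y + k := by omega
  constructor <;> omega

/-- the reduction for one element -/
theorem sparse {k : ℤ} (hk : k % 6 = 1 ∨ k % 6 = 5) {c : ℝ} (hc : 1 < c) (hc' : c < 101 / 100) {s : ℤ} (hs : s = 1 ∨ s = -1)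
    {S : Set ℤ} (hS : Invariant k S) {ψ : ℕ → ℝ} (hψ : Tendsto ψ atTop (𝓝 0)) {x₀ : ℤ} (hx0 : 0 < s * x₀)
    (hx3 : ¬ (3 : ℤ) ∣ x₀)
    (h : ∃ᶠ X : ℕ in atTop, ∃ q : ℕ, 1 ≤ q ∧ (q : ℝ) ≤ (X : ℝ) ^ ψ X ∧ ∃ a : ℤ, Rel (Int.gcd q k) (s * a) x₀ ∧
      (count s c q a Sᶜ X : ℝ) ≤ ψ X * ((X : ℝ) / q)) : x₀ ∈ S := by
  classical
  by_contra hx
  have hSc : Inv k Sᶜ := fun x => not_congr (hS x)
  have hD1 : 1 ≤ k.natAbs := by omega
  have hDR : (0 : ℝ) < k.natAbs := by exact_mod_cast hD1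
  obtain ⟨φ, hφ, hpos⟩ := exists_phi hk hs hSc
  have hφ0 : 0 < φ x₀ := hpos x₀ x₀ hx hx0 hx3 ⟨0, 0, by simp⟩
  obtain ⟨θ, hθ, X₀, hX₀, H1⟩ := dens_ps hk hc hc' hs (show 0 < φ x₀ / (4 * k.natAbs) by positivity)
  obtain ⟨K, hK, H2⟩ := main_termc hk hc hc'
  have hlim : Tendsto (fun X : ℕ => (2 * k.natAbs * K) * (X : ℝ) ^ (-(1 / 8000) : ℝ)) atTop (𝓝 0) := by
    have h1 := (tendsto_rpow_neg_atTop (show (0 : ℝ) < 1 / 8000 by norm_num)).comp tendsto_natCast_atTop_atTop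
    have h2 := h1.const_mul (2 * k.natAbs * K)
    rw [mul_zero] at h2
    exact h2
  have hev : ∀ᶠ X : ℕ in atTop, ψ X < φ x₀ / (4 * k.natAbs) ∧ ψ X < θ ∧ ψ X < 1 / 8000 ∧
      (2 * k.natAbs * K) * (X : ℝ) ^ (-(1 / 8000) : ℝ) < 1 ∧ X₀ ≤ X :=
    (hψ.eventually (gt_mem_nhds (by positivity))).and ((hψ.eventually (gt_mem_nhds hθ)).and
      ((hψ.eventually (gt_mem_nhds (by norm_num))).and ((hlim.eventually (gt_mem_nhds one_pos)).and (eventually_ge_atTop _))))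
  obtain ⟨X, ⟨q, hq, hqX, a, ha, hcc⟩, h1, h2, h3, h5, hX0⟩ := (h.and_eventually hev).exists
  have hXR : (1 : ℝ) ≤ X := by exact_mod_cast (by omega : 1 ≤ X)
  have hX00 : (0 : ℝ) < X := by linarith
  have hq0 : (0 : ℝ) < q := by exact_mod_cast hq
  have hqθ : (q : ℝ) ≤ (X : ℝ) ^ θ := hqX.trans (Real.rpow_le_rpow_of_exponent_le hXR h2.le)
  have hq2 : (q : ℝ) ≤ (X : ℝ) ^ (1 / 8000 : ℝ) := hqX.trans (Real.rpow_le_rpow_of_exponent_le hXR h3.le)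
  have a1 := (abs_le.1 (H1 Sᶜ hSc φ hφ X hX0 q hq hqθ a)).1
  have a2 := H2 s hs Sᶜ φ hφ x₀ q hq a ha X (by omega)
  -- the error term is at most half the main term
  have a3 : K * (X : ℝ) ^ (1 - 1 / 4000 : ℝ) ≤ (X : ℝ) / (2 * (q * k.natAbs)) := by
    rw [le_div_iff₀ (by positivity)]
    have e1 : (X : ℝ) ^ (1 - 1 / 4000 : ℝ) * (X : ℝ) ^ (1 / 8000 : ℝ) = (X : ℝ) ^ (-(1 / 8000) : ℝ) * X := by
      rw [← Real.rpow_add hX00]
      nth_rewrite 3 [← Real.rpow_one (X : ℝ)]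
      rw [← Real.rpow_add hX00]
      norm_num
    calc K * (X : ℝ) ^ (1 - 1 / 4000 : ℝ) * (2 * (q * k.natAbs))
        = 2 * k.natAbs * K * ((X : ℝ) ^ (1 - 1 / 4000 : ℝ) * q) := by ring
      _ ≤ 2 * k.natAbs * K * ((X : ℝ) ^ (1 - 1 / 4000 : ℝ) * (X : ℝ) ^ (1 / 8000 : ℝ)) := by gcongr
      _ = ((2 * k.natAbs * K) * (X : ℝ) ^ (-(1 / 8000) : ℝ)) * X := by rw [e1]; ring
      _ ≤ 1 * X := mul_le_mul_of_nonneg_right h5.le hX00.le
      _ = X := one_mul _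
  have a4 : φ x₀ * (X / (2 * (q * k.natAbs))) ≤ ∑ n ∈ prog c q a X, φ (s * ⌊(n : ℝ) ^ c⌋) := by
    have e2 : (X : ℝ) / (q * k.natAbs) = 2 * (X / (2 * (q * k.natAbs))) := by field_simp
    have e3 : φ x₀ * (X / (2 * (q * k.natAbs))) ≤ φ x₀ * ((X : ℝ) / (q * k.natAbs) - K * (X : ℝ) ^ (1 - 1 / 4000 : ℝ)) :=
      mul_le_mul_of_nonneg_left (by rw [e2]; linarith) hφ0.le
    refine e3.trans (a2.trans (le_of_eq ?_))
    unfold prog
    apply sum_congr _ (fun _ _ => rfl)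
    ext n
    simp only [mem_filter]
  have a5 : -(φ x₀ / (4 * k.natAbs) * ((X : ℝ) / q)) ≤ (count s c q a Sᶜ X : ℝ) - ∑ n ∈ prog c q a X, φ (s * ⌊(n : ℝ) ^ c⌋) := by
    refine a1.trans (le_of_eq ?_)
    have e4 : ∑ n ∈ (Icc 1 X).filter (fun n : ℕ => ⌊(n : ℝ) ^ c⌋ ≡ a [ZMOD q]), φ (s * ⌊(n : ℝ) ^ c⌋) =
        ∑ n ∈ prog c q a X, φ (s * ⌊(n : ℝ) ^ c⌋) := by
      unfold prog
      apply sum_congr _ (fun _ _ => rfl)
      ext n
      simp only [mem_filter]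
    rw [← e4]
    rfl
  have e5 : φ x₀ * (X / (2 * (q * k.natAbs))) = 2 * (φ x₀ / (4 * k.natAbs)) * ((X : ℝ) / q) := by
    field_simp; ring
  have hpos2 : 0 < (X : ℝ) / q := by positivity
  have a6 : ψ X * ((X : ℝ) / q) < φ x₀ / (4 * k.natAbs) * ((X : ℝ) / q) :=
    mul_lt_mul_of_pos_right h1 hpos2
  rw [e5] at a4
  linarith

/-- almost bounded values -/
theorem tail_bound {k : ℤ} (hk : k % 2 = 1) {c : ℝ} (hc : 1 < c) (hc' : c < 101 / 100) :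
    ∃ ρ C : ℝ, 0 < ρ ∧ ∀ s : ℤ, (s = 1 ∨ s = -1) → ∀ X : ℕ, 1 ≤ X → ∀ y : ℝ, 1 ≤ y →
      ({n : ℕ | 1 ≤ n ∧ n ≤ X ∧ ∀ i : ℕ, y < |(((T k)^[i] (s * ⌊(n : ℝ) ^ c⌋) : ℤ) : ℝ)|}.ncard : ℝ) ≤
        C * X / y ^ ρ := by
  obtain ⟨c0, hc0, C0, hC0, H0⟩ := Pool.Agent.TH930.PS.three' (Int.odd_iff.2 hk)
  have hb := Pool.Agent.H319R2.beta_lt
  obtain ⟨ρ, C, hρ, -, H⟩ := low_ps hk hc hc' (by linarith) hC0 H0
  exact ⟨ρ, C, hρ, H⟩

/-- Let `1 < c < 101/100`.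
(1) There is `K` such that for all odd `k`, both signs `s`, all `X`, all `j ≥ log X` and all functions `F`
with values in `[-1, 1]` such that `F x` depends only on the `j`-th iterate of `x` under the `3x+k` map: for
all real `θ` the sum of `F (s ⌊n ^ c⌋) e(θ ⌊n ^ c⌋)` over the `n ≤ X` is the sum of
`((m + 1) ^ (1 / c) - m ^ (1 / c)) F (s m) e(θ m)` over the `m ≤ X ^ c` up to `K k ^ 2 X ^ (1 - 1 / 4000)`, and
for all `q` and `a` the sum of `F (s ⌊n ^ c⌋)` over the `n ≤ X` with `⌊n ^ c⌋ ≡ a` modulo `q` is the sum of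
`((m + 1) ^ (1 / c) - m ^ (1 / c)) F (s m)` over the `m ≤ X ^ c`, `m ≡ a` modulo `q`, up to the same bound.
(2) For every odd `k` there are `ρ > 0` and `C` such that for both signs `s`, all `X` and all `y ≥ 1` the orbits
of the `s ⌊n ^ c⌋` have a term of absolute value at most `y` for all but `C X / y ^ ρ` of the `n ≤ X`.
Now let `k` be congruent to `1` or `5` modulo `6`. All invariant sets have local densities.
(3) Let `ε > 0`. There is `θ > 0` such that for all large `X`, all `q ≤ X ^ θ` and all `a`, an invariant set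
with local densities `φ` contains `s ⌊n ^ c⌋` for `∑ φ (s ⌊n ^ c⌋) + O(ε X / q)` of the `n ≤ X` with
`⌊n ^ c⌋ ≡ a` modulo `q`; the sum is over all these `n`; uniformly in the set.
(4) The sum of `(1_S - φ) (s ⌊n ^ c⌋) e(α ⌊n ^ c⌋)` over the `n ≤ X` is `o(X)`, uniformly in the invariant set
`S` and in the real number `α`.
(5) Let `x₀` be an integer of sign `s` prime to `3`. If for infinitely many `X`, for some `q ≤ X ^ o(1)` and
some `a` such that `s a` agrees with `x₀` modulo the greatest common divisor of `q` and `k` up to factors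
`2` and `3`, the invariant set `S` contains `s ⌊n ^ c⌋` for all but `o(X / q)` of the `n ≤ X` with
`⌊n ^ c⌋ ≡ a` modulo `q`, then it contains `x₀`.
(6) If this holds for both signs, with `q` prime to `k`, for the set of the integers with eventually
periodic orbits, then all orbits of the `3x+k` map are eventually periodic. -/
theorem result (c : ℝ) (hc : 1 < c) (hc' : c < 101 / 100) :
    (∃ K : ℝ, ∀ k : ℤ, k % 2 = 1 → ∀ s : ℤ, (s = 1 ∨ s = -1) → ∀ X j : ℕ, 1 ≤ X → Real.log X ≤ j →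
      ∀ F : ℤ → ℝ, Late k j F →
      (∀ θ : ℝ, ‖∑ n ∈ Finset.Icc 1 X, (F (s * ⌊(n : ℝ) ^ c⌋) : ℂ) * e (θ * ⌊(n : ℝ) ^ c⌋)
        - ∑ m ∈ Finset.Icc 1 ⌊(X : ℝ) ^ c⌋₊, ((weight c m * F (s * m) : ℝ) : ℂ) * e (θ * m)‖
        ≤ K * (k : ℝ) ^ 2 * (X : ℝ) ^ (1 - 1 / 4000 : ℝ)) ∧
      ∀ q : ℕ, 1 ≤ q → ∀ a : ℤ, |∑ n ∈ prog c q a X, F (s * ⌊(n : ℝ) ^ c⌋)
        - ∑ m ∈ (Finset.Icc 1 ⌊(X : ℝ) ^ c⌋₊).filter (fun m : ℕ => (m : ℤ) ≡ a [ZMOD q]), weight c m * F (s * m)|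
        ≤ K * (k : ℝ) ^ 2 * (X : ℝ) ^ (1 - 1 / 4000 : ℝ)) ∧
    (∀ k : ℤ, k % 2 = 1 → ∃ ρ C : ℝ, 0 < ρ ∧ ∀ s : ℤ, (s = 1 ∨ s = -1) → ∀ X : ℕ, 1 ≤ X → ∀ y : ℝ, 1 ≤ y →
      ({n : ℕ | 1 ≤ n ∧ n ≤ X ∧ ∀ i : ℕ, y < |(((T k)^[i] (s * ⌊(n : ℝ) ^ c⌋) : ℤ) : ℝ)|}.ncard : ℝ) ≤
        C * X / y ^ ρ) ∧
    ∀ k : ℤ, (k % 6 = 1 ∨ k % 6 = 5) →
      (∀ s : ℤ, (s = 1 ∨ s = -1) → ∀ S : Set ℤ, Invariant k S → ∃ φ : ℤ → ℝ, LocalDensity k s S φ) ∧
      (∀ s : ℤ, (s = 1 ∨ s = -1) → ∀ ε : ℝ, 0 < ε → ∃ θ : ℝ, 0 < θ ∧ ∃ X₀ : ℕ, ∀ S : Set ℤ, Invariant k S →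
        ∀ φ : ℤ → ℝ, LocalDensity k s S φ → ∀ X : ℕ, X₀ ≤ X → ∀ q : ℕ, 1 ≤ q → (q : ℝ) ≤ (X : ℝ) ^ θ → ∀ a : ℤ,
          |(count s c q a S X : ℝ) - ∑ n ∈ prog c q a X, φ (s * ⌊(n : ℝ) ^ c⌋)| ≤ ε * ((X : ℝ) / q)) ∧
      (∀ s : ℤ, (s = 1 ∨ s = -1) → ∀ ε : ℝ, 0 < ε → ∃ X₀ : ℕ, ∀ S : Set ℤ, Invariant k S →
        ∀ φ : ℤ → ℝ, LocalDensity k s S φ → ∀ X : ℕ, X₀ ≤ X → ∀ α : ℝ,
          ‖∑ n ∈ Finset.Icc 1 X, ((S.indicator (fun _ => (1 : ℝ)) (s * ⌊(n : ℝ) ^ c⌋) - φ (s * ⌊(n : ℝ) ^ c⌋) : ℝ) : ℂ) *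
            e (α * ⌊(n : ℝ) ^ c⌋)‖ ≤ ε * X) ∧
      (∀ s : ℤ, (s = 1 ∨ s = -1) → ∀ S : Set ℤ, Invariant k S → ∀ ψ : ℕ → ℝ, Tendsto ψ atTop (𝓝 0) →
        ∀ x₀ : ℤ, 0 < s * x₀ → ¬ (3 : ℤ) ∣ x₀ →
        (∃ᶠ X : ℕ in atTop, ∃ q : ℕ, 1 ≤ q ∧ (q : ℝ) ≤ (X : ℝ) ^ ψ X ∧ ∃ a : ℤ, Rel (Int.gcd q k) (s * a) x₀ ∧
          (count s c q a Sᶜ X : ℝ) ≤ ψ X * ((X : ℝ) / q)) → x₀ ∈ S) ∧
      ∀ ψ : ℕ → ℝ, Tendsto ψ atTop (𝓝 0) →
        (∀ s : ℤ, (s = 1 ∨ s = -1) → ∃ᶠ X : ℕ in atTop, ∃ q : ℕ, 1 ≤ q ∧ IsCoprime (q : ℤ) k ∧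
          (q : ℝ) ≤ (X : ℝ) ^ ψ X ∧ ∃ a : ℤ, (count s c q a {x | ¬ EvPer k x} X : ℝ) ≤ ψ X * ((X : ℝ) / q)) →
        ∀ x : ℤ, EvPer k x := by
  refine ⟨transfer hc hc', fun k hk => tail_bound hk hc hc', fun k hk => ⟨fun s hs S hS => exists_local hk hs hS, ?_, ?_, ?_, ?_⟩⟩
  · intro s hs ε hε
    obtain ⟨θ, hθ, X₀, -, H1⟩ := dens_ps hk hc hc' hs hε
    refine ⟨θ, hθ, X₀, fun S hS φ hφ X hX q hq hqX a => ?_⟩
    have h1 := H1 S hS φ (local_phi hs hφ) X hX q hq hqX a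
    exact h1
  · intro s hs ε hε
    obtain ⟨X₀, -, H1⟩ := fourier_ps hk hc hc' hs hε
    refine ⟨X₀, fun S hS φ hφ X hX α => ?_⟩
    have h1 := H1 S hS φ (local_phi hs hφ) X hX α
    refine le_trans (le_of_eq ?_) h1
    congr 1
    apply sum_congr rfl
    intro n _
    have e1 : balD s S φ ⌊(n : ℝ) ^ c⌋ = S.indicator (fun _ => (1 : ℝ)) (s * ⌊(n : ℝ) ^ c⌋) - φ (s * ⌊(n : ℝ) ^ c⌋) := by
      unfold balD ind
      by_cases h : s * ⌊(n : ℝ) ^ c⌋ ∈ S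
      · rw [Set.indicator_of_mem h, if_pos h]
      · rw [Set.indicator_of_notMem h, if_neg h]
    rw [nk_e, e1]
  · intro s hs S hS ψ hψ x₀ hx0 hx3 h
    exact sparse hk hc hc' hs hS hψ hx0 hx3 h
  · intro ψ hψ h x
    have hrel : ∀ (q : ℕ) (s a x : ℤ), IsCoprime (q : ℤ) k → Rel (Int.gcd q k) (s * a) x := by
      intro q s a x hco
      have h1 := Int.isCoprime_iff_gcd_eq_one.1 hco
      refine ⟨0, 0, ?_⟩
      rw [h1]
      exact Int.modEq_one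
    have key : ∀ x : ℤ, x ≠ 0 → ¬ (3 : ℤ) ∣ x → EvPer k x := by
      intro x hx hx3
      rcases lt_or_gt_of_ne hx with h0 | h0
      · refine sparse hk hc hc' (Or.inr rfl) (evper_inv k) hψ (by omega) hx3 ((h (-1) (Or.inr rfl)).mono ?_)
        rintro X ⟨q, hq, hco, hqX, a, hcc⟩
        exact ⟨q, hq, hqX, a, hrel q _ a x hco, hcc⟩
      · refine sparse hk hc hc' (Or.inl rfl) (evper_inv k) hψ (by omega) hx3 ((h 1 (Or.inl rfl)).mono ?_)
        rintro X ⟨q, hq, hco, hqX, a, hcc⟩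
        exact ⟨q, hq, hqX, a, hrel q _ a x hco, hcc⟩
    rcases eq_or_ne x 0 with rfl | hx
    · refine ⟨0, 1, le_rfl, ?_⟩
      simp [T]
    · obtain ⟨j, h1, h2⟩ := reaches_cop hk hx
      have h3 := key _ h1 h2
      exact (inv_iter (S := {x | EvPer k x}) (evper_inv k) j x).2 h3

end Pool.Agent.Results.MP_7f88e4_nt.PiatetskiShapiroProgressions
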