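import Mathlib
import Pool.Agent.Helper82K9.PM5

set_option autoImplicit false

/-!
# Sets invariant under the `3x+k` maps and polynomials modulo one

Let `k` be any odd number and let `F` be a bounded function on the integers that has the same value at any
two integers whose orbits under the `3x+k` map are at some time at the same point, for example the
indicator function of the basin of a cycle, or of the set of integers with eventually periodic orbits. A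
Weyl inequality holds for the sums of `F n e(P n)` over the intervals and over all progressions in them:
there is a power saving, uniform in `F` and in the progression, for all real polynomials `P` of degree
`m ≥ 2` whose leading coefficient is not near a rational number with small denominator. So for all
polynomials with a given diophantine leading coefficient the values at the elements of an invariant set
in a progression are equidistributed modulo one with a power saving that does not depend on the set. If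
`3` does not divide `k` then, in the sparse sets of the `n ≤ X`, `n ≡ a` modulo `q`, for which the
fractional part of `P n` is less than `X ^ (-ν)`, the invariant sets are counted by their local densities
modulo `k`, and it is enough to prove that the orbits of the elements of such sparse sets are eventually
periodic.

Method. As for `k = 1` (starting file MP_d02c56_nt.PolynomialsModuloOne): the fibres of the `t`-th iterate
of the map among the integers with `a` odd terms in the first `t` terms; Cauchy-Schwarz; the pairs `n`,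
`n + h` in one fibre depend only on `n` modulo `2 ^ t`; the inverse theorem for Weyl sums. For the
constant `k` the offsets of the affine maps are multiples of `k`, which costs a constant factor in the
number of exceptional integers. Progressions by additive characters, which do not change the leading
coefficient of a polynomial of degree at least two; the local densities in progressions to moduli up to a
small power of `X` from MP_7f88e4_nt.SiftedProgressions.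
-/

namespace Pool.Agent.Results.MP_7f88e4_nt.PolynomialsModuloOne

open Filter Topology

/-- the `3x+k` map on the integers -/
def T (k x : ℤ) : ℤ := if x % 2 = 0 then x / 2 else (3 * x + k) / 2

/-- the orbit of `n` is eventually periodic -/
def EvPer (k n : ℤ) : Prop := ∃ m p : ℕ, 1 ≤ p ∧ (T k)^[m + p] n = (T k)^[m] n

/-- `S` is invariant under the `3x+k` map and its inverse -/
def Invariant (k : ℤ) (S : Set ℤ) : Prop := ∀ x : ℤ, x ∈ S ↔ T k x ∈ S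

/-- A bounded function on the integers that has the same value at any two integers whose orbits under
the `3x+k` map are at some time at the same point. -/
def Synchronous (k : ℤ) (F : ℤ → ℝ) : Prop :=
  (∀ x, |F x| ≤ 1) ∧ ∀ (j : ℕ) (x y : ℤ), (T k)^[j] x = (T k)^[j] y → F x = F y

/-- `exp (2 π i x)` -/
noncomputable def e (x : ℝ) : ℂ := Complex.exp (2 * Real.pi * x * Complex.I)

/-- `α` is irrational and not a Liouville number. -/
def Diophantine (α : ℝ) : Prop :=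
  ∃ A c : ℝ, 0 < c ∧ ∀ l : ℕ, 1 ≤ l → ∀ a : ℤ, c * (l : ℝ) ^ (-A) ≤ |l * α - a|

/-- `a` and `b` agree modulo `k` up to a factor `2 ^ i * 3 ^ j`. -/
def Rel (k a b : ℤ) : Prop := ∃ i j : ℕ, a ≡ 2 ^ i * 3 ^ j * b [ZMOD k]

/-- `φ` gives the densities of `S`, on the side `s`, relative to the classes modulo `k`: it has values
in `[0, 1]`, it depends only on the residue modulo `k` up to factors `2` and `3`, the elements of `S`
which are congruent to `a` modulo `k` have natural density `φ a / |k|` on the side `s`, and `φ a` is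
positive if `S` has an element of sign `s` prime to `3` in a class related to that of `a`. -/
def LocalDensity (k s : ℤ) (S : Set ℤ) (φ : ℤ → ℝ) : Prop :=
  (∀ a : ℤ, 0 ≤ φ a ∧ φ a ≤ 1) ∧ (∀ a b : ℤ, Rel k a b → φ a = φ b) ∧
  (∀ a : ℤ, Tendsto (fun N : ℕ => ({n : ℤ | 0 < s * n ∧ s * n ≤ N ∧ n ∈ S ∧ n ≡ a [ZMOD k]}.ncard : ℝ) / N)
    atTop (𝓝 (φ a / k.natAbs))) ∧
  (∀ a x : ℤ, x ∈ S → 0 < s * x → ¬ (3 : ℤ) ∣ x → Rel k a x → 0 < φ a)

/-- The integers `n` in `[1, X]` that are congruent to `a` modulo `q`. -/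
def prog (q : ℕ) (a : ℤ) (X : ℕ) : Finset ℕ := (Finset.Icc 1 X).filter (fun n : ℕ => (n : ℤ) ≡ a [ZMOD q])

/-- The number of the `n` in `[1, X]`, `n ≡ a` modulo `q`, with `s n ∈ S` for which the fractional part of
`P n` is less than `w`. -/
noncomputable def count (s : ℤ) (P : Polynomial ℝ) (w : ℝ) (q : ℕ) (a : ℤ) (S : Set ℤ) (X : ℕ) : ℕ :=
  {n : ℕ | 1 ≤ n ∧ n ≤ X ∧ (n : ℤ) ≡ a [ZMOD q] ∧ Int.fract (P.eval (n : ℝ)) < w ∧ s * n ∈ S}.ncard

/-! ### proofs -/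

open Pool.Agent.W41 Pool.Agent.H499R2.ND Pool.Agent.W36.FD Pool.Agent.Helper82K9.GK Pool.Agent.Y965.PS
  Pool.Agent.Y55 Pool.Agent.Helper82K9.PM Finset

theorem sync_side {k : ℤ} (hk : Odd k) {s : ℤ} (hs : s = 1 ∨ s = -1) {F : ℤ → ℝ} (hF : Synchronous k F) :
    Sync (s * k) (fun x => F (s * x)) := by
  refine ⟨fun x => hF.1 _, fun j x y h => hF.2 j _ _ ?_⟩
  have hss : s * s = 1 := by rcases hs with rfl | rfl <;> norm_num
  have e1 : ∀ x : ℤ, s * (Td (s * k))^[j] x = (Td k)^[j] (s * x) := by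
    intro x
    rw [Td_side hk hs j x, ← mul_assoc, hss, one_mul]
  have h' : (Td (s * k))^[j] x = (Td (s * k))^[j] y := h
  have h1 := e1 x
  rw [h', e1 y] at h1
  exact h1.symm

/-- the two signs at once -/
theorem both {Φ : ℤ → ℝ → ℝ → Prop} (h : ∀ s : ℤ, (s = 1 ∨ s = -1) → ∃ C c : ℝ, 0 ≤ C ∧ 0 < c ∧ Φ s C c)
    (hm : ∀ s C c C' c', C ≤ C' → c' ≤ c → Φ s C c → Φ s C' c') :
    ∃ K c : ℝ, 0 ≤ K ∧ 0 < c ∧ ∀ s : ℤ, (s = 1 ∨ s = -1) → Φ s K c := by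
  obtain ⟨C1, c1, hC1, hc1, h1⟩ := h 1 (Or.inl rfl)
  obtain ⟨C2, c2, hC2, hc2, h2⟩ := h (-1) (Or.inr rfl)
  refine ⟨max C1 C2, min c1 c2, le_max_of_le_left hC1, lt_min hc1 hc2, ?_⟩
  rintro s (rfl | rfl)
  · exact hm _ _ _ _ _ (le_max_left _ _) (min_le_left _ _) h1
  · exact hm _ _ _ _ _ (le_max_right _ _) (min_le_right _ _) h2

theorem bound_mono {C C' c c' A : ℝ} (h1 : C ≤ C') (h2 : c' ≤ c) {X : ℕ} (hX : 1 ≤ X) (hA : 0 ≤ A)
    (h : A ≤ C * (X : ℝ) ^ (1 - c)) : A ≤ C' * (X : ℝ) ^ (1 - c') := by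
  have hXR : (1 : ℝ) ≤ X := by exact_mod_cast hX
  have hp : (0 : ℝ) < (X : ℝ) ^ (1 - c) := by positivity
  have hC : 0 ≤ C := by
    by_contra hcon
    push Not at hcon
    nlinarith
  have h3 : (X : ℝ) ^ (1 - c) ≤ (X : ℝ) ^ (1 - c') := Real.rpow_le_rpow_of_exponent_le hXR (by linarith)
  exact h.trans (mul_le_mul h1 h3 hp.le (hC.trans h1))

/-- the Weyl inequality -/
theorem weyl {k : ℤ} (hk : k % 2 = 1) {m : ℕ} (hm : 2 ≤ m) {η : ℝ} (hη : 0 < η) :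
    ∃ K c : ℝ, 0 ≤ K ∧ 0 < c ∧ ∀ s : ℤ, (s = 1 ∨ s = -1) → ∀ F : ℤ → ℝ, Synchronous k F →
    ∀ P : Polynomial ℝ, P.natDegree ≤ m → ∀ q : ℕ, 1 ≤ q → ∀ a : ℤ, ∀ X : ℕ, 1 ≤ X →
      (∀ l : ℕ, 1 ≤ l → (l : ℝ) ≤ (X : ℝ) ^ η → ∀ a : ℤ, (X : ℝ) ^ (η + 1 - m) ≤ |l * P.coeff m - a|) →
      ‖∑ n ∈ prog q a X, (F (s * n) : ℂ) * e (P.eval (n : ℝ))‖ ≤ K * (X : ℝ) ^ (1 - c) := by
  have hodd : Odd k := Int.odd_iff.2 hk
  obtain ⟨m, rfl⟩ : ∃ m', m = m' + 1 := ⟨m - 1, by omega⟩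
  refine both (Φ := fun s K c => ∀ F : ℤ → ℝ, Synchronous k F → ∀ P : Polynomial ℝ, P.natDegree ≤ m + 1 →
      ∀ q : ℕ, 1 ≤ q → ∀ a : ℤ, ∀ X : ℕ, 1 ≤ X →
      (∀ l : ℕ, 1 ≤ l → (l : ℝ) ≤ (X : ℝ) ^ η → ∀ a : ℤ, (X : ℝ) ^ (η + 1 - (m + 1 : ℕ)) ≤ |l * P.coeff (m + 1) - a|) →
      ‖∑ n ∈ prog q a X, (F (s * n) : ℂ) * e (P.eval (n : ℝ))‖ ≤ K * (X : ℝ) ^ (1 - c)) ?_ ?_
  · intro s hs
    have hsk : (s * k) % 2 = 1 := by rcases hs with rfl | rfl <;> omega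
    obtain ⟨C1, c1, hC1, hc1, H⟩ := weyl_ap hsk (k := m) (by omega) (show 0 < η / 2 by positivity)
    set D : ℝ := ((m + 1).factorial : ℝ) with hD
    have hD1 : 1 ≤ D := by
      rw [hD]; exact_mod_cast Nat.one_le_iff_ne_zero.2 (Nat.factorial_ne_zero _)
    have hD0 : 0 < D := by linarith
    refine ⟨C1 + D ^ (2 / η), min c1 1, by positivity, lt_min hc1 one_pos, ?_⟩
    intro F hF P hP q hq a X hX hmin
    have hXR : (1 : ℝ) ≤ X := by exact_mod_cast hX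
    have hX0 : (0 : ℝ) < X := by linarith
    rcases le_or_gt D ((X : ℝ) ^ (η / 2)) with hbig | hsm
    · have h1 := DS.Ph_real (m + 1) P hP
      have h2 := H _ (sync_side hodd hs hF) q hq a X hX _ _ h1 (by
        intro l hl hl2 a
        have h3 : 1 ≤ l * (m + 1).factorial := Nat.mul_pos hl (Nat.factorial_pos _)
        have h4 : ((l * (m + 1).factorial : ℕ) : ℝ) ≤ (X : ℝ) ^ η := by
          push_cast
          have e1 : (X : ℝ) ^ η = (X : ℝ) ^ (η / 2) * (X : ℝ) ^ (η / 2) := by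
            rw [← Real.rpow_add hX0]; congr 1; ring
          rw [e1]
          exact mul_le_mul hl2 hbig (by positivity) (by positivity)
        have h5 := hmin _ h3 h4 a
        have h6 : ((l * (m + 1).factorial : ℕ) : ℝ) * P.coeff (m + 1) - a = l * (((m + 1).factorial : ℝ) * P.coeff (m + 1)) - a := by
          push_cast; ring
        rw [h6] at h5
        refine le_trans ?_ h5
        apply Real.rpow_le_rpow_of_exponent_le hXR
        push_cast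
        linarith)
      have h3 : ‖∑ n ∈ prog q a X, (F (s * n) : ℂ) * e (P.eval (n : ℝ))‖ ≤ C1 * (X : ℝ) ^ (1 - c1) := by
        refine le_trans (le_of_eq ?_) h2
        congr 1
        unfold prog
        rw [sum_filter]
        apply sum_congr rfl
        intro n _
        split_ifs
        · rfl
        · simp
      exact bound_mono (by have : 0 ≤ D ^ (2 / η) := by positivity
                           linarith) (min_le_left _ _) hX (norm_nonneg _) h3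
    · have h1 : ‖∑ n ∈ prog q a X, (F (s * n) : ℂ) * e (P.eval (n : ℝ))‖ ≤ X := by
        refine (norm_sum_le _ _).trans ?_
        have h2 : ∀ n ∈ prog q a X, ‖(F (s * n) : ℂ) * e (P.eval (n : ℝ))‖ ≤ 1 := by
          intro n _
          have h3 : ‖e (P.eval (n : ℝ))‖ = 1 := Pool.Agent.Helper602.MK.N_J5b.norm_ee _
          rw [norm_mul, Complex.norm_real, Real.norm_eq_abs, h3, mul_one]
          exact hF.1 _
        refine (sum_le_sum h2).trans ?_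
        rw [sum_const, nsmul_eq_mul, mul_one]
        have h4 : (prog q a X).card ≤ X := by
          unfold prog
          refine (card_filter_le _ _).trans ?_
          rw [Nat.card_Icc, Nat.add_sub_cancel]
        exact_mod_cast h4
      have h2 : (X : ℝ) ≤ D ^ (2 / η) := by
        have h3 : ((X : ℝ) ^ (η / 2)) ^ (2 / η) ≤ D ^ (2 / η) := Real.rpow_le_rpow (by positivity) hsm.le (by positivity)
        rw [← Real.rpow_mul hX0.le] at h3
        have h4 : η / 2 * (2 / η) = 1 := by field_simp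
        rwa [h4, Real.rpow_one] at h3
      have h3 : (1 : ℝ) ≤ (X : ℝ) ^ (1 - min c1 1) :=
        Real.one_le_rpow hXR (by have := min_le_right c1 1; linarith)
      calc _ ≤ (X : ℝ) := h1
        _ ≤ C1 + D ^ (2 / η) := by linarith
        _ ≤ _ := le_mul_of_one_le_right (by positivity) h3
  · intro s C c C' c' h1 h2 h F hF P hP q hq a X hX hmin
    exact bound_mono h1 h2 hX (norm_nonneg _) (h F hF P hP q hq a X hX hmin)

/-- the discrepancy -/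
theorem discrepancy {k : ℤ} (hk : k % 2 = 1) {m : ℕ} (hm : 2 ≤ m) {α : ℝ} (hα : Diophantine α) :
    ∃ K c : ℝ, 0 ≤ K ∧ 0 < c ∧ ∀ s : ℤ, (s = 1 ∨ s = -1) → ∀ F : ℤ → ℝ, Synchronous k F →
    ∀ P : Polynomial ℝ, P.natDegree ≤ m → P.coeff m = α → ∀ u v : ℝ, 0 ≤ u → u ≤ v → v ≤ 1 →
    ∀ q : ℕ, 1 ≤ q → ∀ a : ℤ, ∀ X : ℕ, 1 ≤ X →
      |∑ n ∈ (prog q a X).filter (fun n : ℕ => u ≤ Int.fract (P.eval (n : ℝ)) ∧ Int.fract (P.eval (n : ℝ)) < v), F (s * n)
        - (v - u) * ∑ n ∈ prog q a X, F (s * n)| ≤ K * (X : ℝ) ^ (1 - c) := by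
  have hodd : Odd k := Int.odd_iff.2 hk
  obtain ⟨m, rfl⟩ : ∃ m', m = m' + 1 := ⟨m - 1, by omega⟩
  refine both (Φ := fun s K c => ∀ F : ℤ → ℝ, Synchronous k F → ∀ P : Polynomial ℝ, P.natDegree ≤ m + 1 → P.coeff (m + 1) = α →
    ∀ u v : ℝ, 0 ≤ u → u ≤ v → v ≤ 1 → ∀ q : ℕ, 1 ≤ q → ∀ a : ℤ, ∀ X : ℕ, 1 ≤ X →
      |∑ n ∈ (prog q a X).filter (fun n : ℕ => u ≤ Int.fract (P.eval (n : ℝ)) ∧ Int.fract (P.eval (n : ℝ)) < v), F (s * n)
        - (v - u) * ∑ n ∈ prog q a X, F (s * n)| ≤ K * (X : ℝ) ^ (1 - c)) ?_ ?_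
  · intro s hs
    have hsk : (s * k) % 2 = 1 := by rcases hs with rfl | rfl <;> omega
    obtain ⟨C1, c1, hC1, hc1, -, H⟩ := disc_ap hsk (k := m) (by omega) hα
    refine ⟨C1, c1, hC1, hc1, fun F hF P hP hPc u v hu huv hv q hq a X hX => ?_⟩
    have h1 := H _ (sync_side hodd hs hF) q hq a P hP hPc u v hu huv hv X hX
    unfold prog
    rw [filter_filter]
    convert h1 using 5
  · intro s C c C' c' h1 h2 h F hF P hP hPc u v hu huv hv q hq a X hX
    exact bound_mono h1 h2 hX (abs_nonneg _) (h F hF P hP hPc u v hu huv hv q hq a X hX)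

theorem dens_iff {k s : ℤ} (hs : s = 1 ∨ s = -1) {S : Set ℤ} {φ : ℤ → ℝ} :
    DD s S k.natAbs (fun c => φ c / (k.natAbs : ℝ)) ↔
    (∀ a : ℤ, Tendsto (fun N : ℕ => ({n : ℤ | 0 < s * n ∧ s * n ≤ N ∧ n ∈ S ∧ n ≡ a [ZMOD k]}.ncard : ℝ) / N)
      atTop (𝓝 (φ a / k.natAbs))) := by
  have e1 : ∀ (a : ℤ) (N : ℕ), {n : ℤ | 0 < s * n ∧ s * n ≤ N ∧ n ∈ S ∧ n ≡ a [ZMOD k]}.ncard
      = cA s S k.natAbs a N := by
    intro a N
    rw [← cA_ncard hs]
    congr 1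
    ext n
    have : n ≡ a [ZMOD k] ↔ n ≡ a [ZMOD (k.natAbs : ℤ)] := by
      rw [Int.modEq_iff_dvd, Int.modEq_iff_dvd, Int.natAbs_dvd]
    simp only [Set.mem_ofPred_eq, this]
  unfold DD
  simp only [e1]

theorem local_phi {k s : ℤ} (hs : s = 1 ∨ s = -1) {S : Set ℤ} {φ : ℤ → ℝ} (h : LocalDensity k s S φ) :
    IsPhi k s S φ := ⟨h.1, h.2.1, (dens_iff hs).2 h.2.2.1⟩

theorem exists_local {k : ℤ} (hk : k % 6 = 1 ∨ k % 6 = 5) {s : ℤ} (hs : s = 1 ∨ s = -1) {S : Set ℤ}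
    (hS : Invariant k S) : ∃ φ : ℤ → ℝ, LocalDensity k s S φ := by
  obtain ⟨φ, ⟨h1, h2, h3⟩, h4⟩ := exists_phi hk hs (S := S) hS
  exact ⟨φ, h1, h2, (dens_iff hs).1 h3, h4⟩

theorem evper_inv (k : ℤ) : Invariant k {n | EvPer k n} := by
  intro x
  constructor
  · rintro ⟨m, p, hp, h⟩
    refine ⟨m, p, hp, ?_⟩
    rw [← Function.iterate_succ_apply, ← Function.iterate_succ_apply,
      Function.iterate_succ_apply', Function.iterate_succ_apply', h]
  · rintro ⟨m, p, hp, h⟩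
    refine ⟨m + 1, p, hp, ?_⟩
    rw [← Function.iterate_succ_apply, ← Function.iterate_succ_apply] at h
    rw [show m + 1 + p = (m + p).succ by omega]
    exact h

/-- every nonzero orbit reaches a nonzero number prime to `3` -/
theorem reaches_cop {k : ℤ} (hk : k % 6 = 1 ∨ k % 6 = 5) {x : ℤ} (hx : x ≠ 0) :
    ∃ j : ℕ, (T k)^[j] x ≠ 0 ∧ ¬ (3 : ℤ) ∣ (T k)^[j] x := by
  obtain ⟨e, y, hy, hxy⟩ : ∃ (e : ℕ) (y : ℤ), y % 2 = 1 ∧ x = 2 ^ e * y := by
    obtain ⟨n, hn⟩ : ∃ n : ℕ, n = x.natAbs := ⟨_, rfl⟩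
    induction n using Nat.strong_induction_on generalizing x with
    | _ n ih =>
      rcases Int.emod_two_eq_zero_or_one x with h | h
      · obtain ⟨e, y, hy, hxy⟩ := ih (x / 2).natAbs (by omega) (x := x / 2) (by omega) rfl
        refine ⟨e + 1, y, hy, ?_⟩
        have : x = 2 * (x / 2) := by omega
        rw [this, hxy, pow_succ]
        ring
      · exact ⟨0, x, h, by simp⟩
  refine ⟨e + 1, ?_⟩
  have h1 : (T k)^[e] x = y := by
    rw [hxy]
    exact Td_two_pow k e y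
  rw [Function.iterate_succ_apply', h1]
  unfold T
  rw [if_neg (by omega)]
  have h2 : 2 * ((3 * y + k) / 2) = 3 * y + k := by omega
  constructor <;> omega

/-- the reduction for one element -/
theorem sparse {k : ℤ} (hk : k % 6 = 1 ∨ k % 6 = 5) {m : ℕ} {α : ℝ} {ν : ℝ} {s : ℤ} (hs : s = 1 ∨ s = -1)
    (H : ∀ ε : ℝ, 0 < ε → ∃ θ : ℝ, 0 < θ ∧ ∃ X₀ : ℕ, 1 ≤ X₀ ∧ ∀ S : Set ℤ, Inv k S → ∀ φ : ℤ → ℝ, IsPhi k s S φ →
      ∀ P : Polynomial ℝ, P.natDegree ≤ m → P.coeff m = α → ∀ X : ℕ, X₀ ≤ X → ∀ q : ℕ, 1 ≤ q → (q : ℝ) ≤ (X : ℝ) ^ θ →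
      ∀ a : ℤ, |(count s P ((X : ℝ) ^ (-ν)) q a S X : ℝ) - (X : ℝ) ^ (-ν) * ∑ n ∈ prog q a X, φ (s * n)| ≤
        ε * ((X : ℝ) ^ (1 - ν) / q))
    {S : Set ℤ} (hS : Invariant k S) {ψ : ℕ → ℝ} (hψ : Tendsto ψ atTop (𝓝 0)) {x₀ : ℤ} (hx0 : 0 < s * x₀)
    (hx3 : ¬ (3 : ℤ) ∣ x₀)
    (h : ∃ᶠ X : ℕ in atTop, ∃ P : Polynomial ℝ, P.natDegree ≤ m ∧ P.coeff m = α ∧ ∃ q : ℕ, 1 ≤ q ∧
      (q : ℝ) ≤ (X : ℝ) ^ ψ X ∧ ∃ a : ℤ, Rel (Int.gcd q k) (s * a) x₀ ∧
      (count s P ((X : ℝ) ^ (-ν)) q a Sᶜ X : ℝ) ≤ ψ X * ((X : ℝ) ^ (1 - ν) / q)) : x₀ ∈ S := by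
  by_contra hx
  have hSc : Inv k Sᶜ := fun x => not_congr (hS x)
  have hD1 : 1 ≤ k.natAbs := by omega
  have hDR : (0 : ℝ) < k.natAbs := by exact_mod_cast hD1
  obtain ⟨φ, hφ, hpos⟩ := exists_phi hk hs hSc
  have hφ0 : 0 < φ x₀ := hpos x₀ x₀ hx hx0 hx3 ⟨0, 0, by simp⟩
  obtain ⟨θ, hθ, X₀, hX₀, H1⟩ := H (φ x₀ / (4 * k.natAbs)) (by positivity)
  have hev : ∀ᶠ X : ℕ in atTop, ψ X < φ x₀ / (4 * k.natAbs) ∧ ψ X < θ ∧ ψ X < 1 / 2 ∧ max X₀ ((2 * k.natAbs) ^ 2) ≤ X :=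
    (hψ.eventually (gt_mem_nhds (by positivity))).and ((hψ.eventually (gt_mem_nhds hθ)).and
      ((hψ.eventually (gt_mem_nhds (by norm_num))).and (eventually_ge_atTop _)))
  obtain ⟨X, ⟨P, hP, hPc, q, hq, hqX, a, ha, hc⟩, h1, h2, h3, h4⟩ := (h.and_eventually hev).exists
  have hX0 : X₀ ≤ X := le_trans (le_max_left _ _) h4
  have hXk : (2 * k.natAbs) ^ 2 ≤ X := le_trans (le_max_right _ _) h4
  have hXR : (1 : ℝ) ≤ X := by exact_mod_cast (by omega : 1 ≤ X)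
  have hX00 : (0 : ℝ) < X := by linarith
  have hq0 : (0 : ℝ) < q := by exact_mod_cast hq
  have hqθ : (q : ℝ) ≤ (X : ℝ) ^ θ := hqX.trans (Real.rpow_le_rpow_of_exponent_le hXR h2.le)
  have hq2 : (q : ℝ) ≤ (X : ℝ) ^ (1 / 2 : ℝ) := hqX.trans (Real.rpow_le_rpow_of_exponent_le hXR h3.le)
  have hk2 : (2 * k.natAbs : ℝ) ≤ (X : ℝ) ^ (1 / 2 : ℝ) := by
    rw [← Real.sqrt_eq_rpow]
    apply Real.le_sqrt_of_sq_le
    exact_mod_cast hXk
  have hqk : (q : ℝ) * (2 * k.natAbs) ≤ X := by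
    calc (q : ℝ) * (2 * k.natAbs) ≤ (X : ℝ) ^ (1 / 2 : ℝ) * (X : ℝ) ^ (1 / 2 : ℝ) :=
          mul_le_mul hq2 hk2 (by positivity) (by positivity)
      _ = X := by rw [← Real.rpow_add hX00]; norm_num
  have a1 := (abs_le.1 (H1 Sᶜ hSc φ hφ P hP hPc X hX0 q hq hqθ a)).1
  have a2 := main_term hk hs hφ x₀ q hq a ha X
  have hw0 : (0 : ℝ) ≤ (X : ℝ) ^ (-ν) := by positivity
  have hsplit : (X : ℝ) ^ (1 - ν) = (X : ℝ) ^ (-ν) * X := by
    rw [sub_eq_neg_add, Real.rpow_add hX00, Real.rpow_one]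
  have a3 : (X : ℝ) / (2 * (q * k.natAbs)) ≤ (X : ℝ) / (q * k.natAbs) - 1 := by
    have e1 : (1 : ℝ) ≤ (X : ℝ) / (2 * (q * k.natAbs)) := by
      rw [le_div_iff₀ (by positivity)]; linarith
    have e2 : (X : ℝ) / (q * k.natAbs) = 2 * (X / (2 * (q * k.natAbs))) := by field_simp
    rw [e2]; linarith
  have a4 : (X : ℝ) ^ (-ν) * (φ x₀ * (X / (2 * (q * k.natAbs)))) ≤ (X : ℝ) ^ (-ν) * ∑ n ∈ prog q a X, φ (s * n) := by
    apply mul_le_mul_of_nonneg_left _ hw0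
    refine (mul_le_mul_of_nonneg_left a3 hφ0.le).trans ?_
    refine a2.trans (le_of_eq ?_)
    unfold prog
    apply sum_congr _ (fun _ _ => rfl)
    ext n
    simp only [mem_filter]
  have e5 : (X : ℝ) ^ (-ν) * (φ x₀ * (X / (2 * (q * k.natAbs)))) = 2 * (φ x₀ / (4 * k.natAbs)) * ((X : ℝ) ^ (1 - ν) / q) := by
    rw [hsplit]; field_simp; ring
  have hpos2 : 0 < (X : ℝ) ^ (1 - ν) / q := by positivity
  have a6 : ψ X * ((X : ℝ) ^ (1 - ν) / q) < φ x₀ / (4 * k.natAbs) * ((X : ℝ) ^ (1 - ν) / q) :=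
    mul_lt_mul_of_pos_right h1 hpos2
  rw [e5] at a4
  linarith

/-- (A) Let `k` be odd.
(1) For `m ≥ 2` and `η > 0` there are `K` and `c > 0` such that for both signs `s`, all bounded functions `F`
that have the same value at integers whose orbits under the `3x+k` map are at some time at the same
point, all `X`, all progressions `a` modulo `q`, and all real polynomials `P` of degree at most `m` such
that the `m`-th coefficient multiplied by any positive integer `l ≤ X ^ η` has distance at least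
`X ^ (η + 1 - m)` to the integers: the sum of `F (s n) e(P n)` over the `n ≤ X`, `n ≡ a` modulo `q`, is at
most `K X ^ (1 - c)`.
(2) Let `α` be diophantine and `m ≥ 2`. There are `K` and `c > 0` such that for all such `s`, `F`, `X`, `q`,
`a`, for all real polynomials `P` of degree `m` with leading coefficient `α` and all intervals `[u, v)` in
`[0, 1]`, the sum of `F (s n)` over the `n ≤ X`, `n ≡ a` modulo `q`, for which the fractional part of `P n`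
is in the interval is `v - u` times the sum over all `n ≤ X`, `n ≡ a` modulo `q`, up to `K X ^ (1 - c)`.
(B) Let `k` be congruent to `1` or `5` modulo `6`, let `α` be diophantine and `m ≥ 2`. Let `0 ≤ ν ≤ ν₀`
(where `ν₀ > 0` depends on `k`, `α` and `m` only).
(3) Let `ε > 0`. There is `θ > 0` such that for all large `X`, all `q ≤ X ^ θ` and all `a`, an invariant set
with local densities `φ` (which exist for all invariant sets) contains `s n` for
`X ^ (-ν) (∑ φ (s n) + O(ε X / q))` of the `n ≤ X`, `n ≡ a` modulo `q`, for which the fractional part of `P n`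
is less than `X ^ (-ν)`; the sum is over all `n ≤ X`, `n ≡ a` modulo `q`; uniformly in the set and in `P`.
(4) Let `x₀` be an integer of sign `s` prime to `3`. If for infinitely many `X`, for some such `P`, some
`q ≤ X ^ o(1)` and some `a` such that `s a` agrees with `x₀` modulo the greatest common divisor of `q` and
`k` up to factors `2` and `3`, the invariant set `S` contains `s n` for all but `o(X ^ (1 - ν) / q)` of these
`n`, then it contains `x₀`.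
(5) If this holds for both signs, with `q` prime to `k`, for the set of the integers with eventually
periodic orbits, then all orbits of the `3x+k` map are eventually periodic. -/
theorem result :
    (∀ k : ℤ, k % 2 = 1 →
      (∀ m : ℕ, 2 ≤ m → ∀ η : ℝ, 0 < η → ∃ K c : ℝ, 0 < c ∧ ∀ s : ℤ, (s = 1 ∨ s = -1) →
        ∀ F : ℤ → ℝ, Synchronous k F → ∀ P : Polynomial ℝ, P.natDegree ≤ m →
        ∀ q : ℕ, 1 ≤ q → ∀ a : ℤ, ∀ X : ℕ, 1 ≤ X →
          (∀ l : ℕ, 1 ≤ l → (l : ℝ) ≤ (X : ℝ) ^ η → ∀ b : ℤ, (X : ℝ) ^ (η + 1 - m) ≤ |l * P.coeff m - b|) →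
          ‖∑ n ∈ prog q a X, (F (s * n) : ℂ) * e (P.eval (n : ℝ))‖ ≤ K * (X : ℝ) ^ (1 - c)) ∧
      (∀ m : ℕ, 2 ≤ m → ∀ α : ℝ, Diophantine α → ∃ K c : ℝ, 0 < c ∧ ∀ s : ℤ, (s = 1 ∨ s = -1) →
        ∀ F : ℤ → ℝ, Synchronous k F → ∀ P : Polynomial ℝ, P.natDegree ≤ m → P.coeff m = α →
        ∀ u v : ℝ, 0 ≤ u → u ≤ v → v ≤ 1 → ∀ q : ℕ, 1 ≤ q → ∀ a : ℤ, ∀ X : ℕ, 1 ≤ X →
          |∑ n ∈ (prog q a X).filter (fun n : ℕ => u ≤ Int.fract (P.eval (n : ℝ)) ∧ Int.fract (P.eval (n : ℝ)) < v),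
            F (s * n) - (v - u) * ∑ n ∈ prog q a X, F (s * n)| ≤ K * (X : ℝ) ^ (1 - c))) ∧
    ∀ k : ℤ, (k % 6 = 1 ∨ k % 6 = 5) →
      (∀ s : ℤ, (s = 1 ∨ s = -1) → ∀ S : Set ℤ, Invariant k S → ∃ φ : ℤ → ℝ, LocalDensity k s S φ) ∧
      ∀ m : ℕ, 2 ≤ m → ∀ α : ℝ, Diophantine α →
      ∃ ν₀ : ℝ, 0 < ν₀ ∧ ∀ ν : ℝ, 0 ≤ ν → ν ≤ ν₀ →
        (∀ s : ℤ, (s = 1 ∨ s = -1) → ∀ ε : ℝ, 0 < ε → ∃ θ : ℝ, 0 < θ ∧ ∃ X₀ : ℕ, ∀ S : Set ℤ, Invariant k S →
          ∀ φ : ℤ → ℝ, LocalDensity k s S φ → ∀ P : Polynomial ℝ, P.natDegree ≤ m → P.coeff m = α →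
          ∀ X : ℕ, X₀ ≤ X → ∀ q : ℕ, 1 ≤ q → (q : ℝ) ≤ (X : ℝ) ^ θ → ∀ a : ℤ,
            |(count s P ((X : ℝ) ^ (-ν)) q a S X : ℝ) - (X : ℝ) ^ (-ν) * ∑ n ∈ prog q a X, φ (s * n)| ≤
              ε * ((X : ℝ) ^ (1 - ν) / q)) ∧
        (∀ s : ℤ, (s = 1 ∨ s = -1) → ∀ S : Set ℤ, Invariant k S → ∀ ψ : ℕ → ℝ, Tendsto ψ atTop (𝓝 0) →
          ∀ x₀ : ℤ, 0 < s * x₀ → ¬ (3 : ℤ) ∣ x₀ →
          (∃ᶠ X : ℕ in atTop, ∃ P : Polynomial ℝ, P.natDegree ≤ m ∧ P.coeff m = α ∧ ∃ q : ℕ, 1 ≤ q ∧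
            (q : ℝ) ≤ (X : ℝ) ^ ψ X ∧ ∃ a : ℤ, Rel (Int.gcd q k) (s * a) x₀ ∧
            (count s P ((X : ℝ) ^ (-ν)) q a Sᶜ X : ℝ) ≤ ψ X * ((X : ℝ) ^ (1 - ν) / q)) → x₀ ∈ S) ∧
        ∀ ψ : ℕ → ℝ, Tendsto ψ atTop (𝓝 0) →
          (∀ s : ℤ, (s = 1 ∨ s = -1) → ∃ᶠ X : ℕ in atTop, ∃ P : Polynomial ℝ, P.natDegree ≤ m ∧ P.coeff m = α ∧
            ∃ q : ℕ, 1 ≤ q ∧ IsCoprime (q : ℤ) k ∧ (q : ℝ) ≤ (X : ℝ) ^ ψ X ∧ ∃ a : ℤ,
            (count s P ((X : ℝ) ^ (-ν)) q a {x | ¬ EvPer k x} X : ℝ) ≤ ψ X * ((X : ℝ) ^ (1 - ν) / q)) →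
          ∀ x : ℤ, EvPer k x := by
  refine ⟨fun k hk => ⟨?_, ?_⟩, fun k hk => ⟨fun s hs S hS => exists_local hk hs hS, ?_⟩⟩
  · intro m hm η hη
    obtain ⟨K, c, -, hc, H⟩ := weyl hk hm hη
    exact ⟨K, c, hc, H⟩
  · intro m hm α hα
    obtain ⟨K, c, -, hc, H⟩ := discrepancy hk hm hα
    exact ⟨K, c, hc, H⟩
  intro m hm α hα
  obtain ⟨ν₀, hν₀, H⟩ := dens_ap hk hm hα
  refine ⟨ν₀, hν₀, fun ν hν0 hν1 => ?_⟩
  have H' : ∀ s : ℤ, (s = 1 ∨ s = -1) → ∀ ε : ℝ, 0 < ε → ∃ θ : ℝ, 0 < θ ∧ ∃ X₀ : ℕ, 1 ≤ X₀ ∧ ∀ S : Set ℤ, Inv k S →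
      ∀ φ : ℤ → ℝ, IsPhi k s S φ → ∀ P : Polynomial ℝ, P.natDegree ≤ m → P.coeff m = α → ∀ X : ℕ, X₀ ≤ X →
      ∀ q : ℕ, 1 ≤ q → (q : ℝ) ≤ (X : ℝ) ^ θ →
      ∀ a : ℤ, |(count s P ((X : ℝ) ^ (-ν)) q a S X : ℝ) - (X : ℝ) ^ (-ν) * ∑ n ∈ prog q a X, φ (s * n)| ≤
        ε * ((X : ℝ) ^ (1 - ν) / q) := by
    intro s hs ε hε
    obtain ⟨θ, hθ, X₀, hX₀, H1⟩ := H ν hν0 hν1 s hs ε hε
    refine ⟨θ, hθ, X₀, hX₀, fun S hS φ hφ P hP hPc X hX q hq hqX a => ?_⟩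
    have h1 := H1 S hS φ hφ P hP hPc X hX q hq hqX a
    change |(cnt s P ((X : ℝ) ^ (-ν)) q a S X : ℝ) - (X : ℝ) ^ (-ν) * ∑ n ∈ prog q a X, φ (s * n)| ≤
      ε * ((X : ℝ) ^ (1 - ν) / q)
    unfold prog
    convert h1 using 6
  refine ⟨?_, ?_, ?_⟩
  · intro s hs ε hε
    obtain ⟨θ, hθ, X₀, -, H1⟩ := H' s hs ε hε
    exact ⟨θ, hθ, X₀, fun S hS φ hφ => H1 S hS φ (local_phi hs hφ)⟩
  · intro s hs S hS ψ hψ x₀ hx0 hx3 h
    exact sparse hk hs (H' s hs) hS hψ hx0 hx3 h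
  · intro ψ hψ h x
    have hrel : ∀ (q : ℕ) (s a x : ℤ), IsCoprime (q : ℤ) k → Rel (Int.gcd q k) (s * a) x := by
      intro q s a x hco
      have h1 := Int.isCoprime_iff_gcd_eq_one.1 hco
      refine ⟨0, 0, ?_⟩
      rw [h1]
      exact Int.modEq_one
    have key : ∀ x : ℤ, x ≠ 0 → ¬ (3 : ℤ) ∣ x → EvPer k x := by
      intro x hx hx3
      rcases lt_or_gt_of_ne hx with h0 | h0
      · refine sparse hk (Or.inr rfl) (H' (-1) (Or.inr rfl)) (evper_inv k) hψ (by omega) hx3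
          ((h (-1) (Or.inr rfl)).mono ?_)
        rintro X ⟨P, hP, hPc, q, hq, hco, hqX, a, hc⟩
        exact ⟨P, hP, hPc, q, hq, hqX, a, hrel q _ a x hco, hc⟩
      · refine sparse hk (Or.inl rfl) (H' 1 (Or.inl rfl)) (evper_inv k) hψ (by omega) hx3
          ((h 1 (Or.inl rfl)).mono ?_)
        rintro X ⟨P, hP, hPc, q, hq, hco, hqX, a, hc⟩
        exact ⟨P, hP, hPc, q, hq, hqX, a, hrel q _ a x hco, hc⟩
    rcases eq_or_ne x 0 with rfl | hx
    · refine ⟨0, 1, le_rfl, ?_⟩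
      simp [T]
    · obtain ⟨j, h1, h2⟩ := reaches_cop hk hx
      have h3 := key _ h1 h2
      exact (inv_iter (S := {x | EvPer k x}) (evper_inv k) j x).2 h3

end Pool.Agent.Results.MP_7f88e4_nt.PolynomialsModuloOne
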