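import Mathlib
import Pool.Agent.Helper82K9.GK.SP6

set_option autoImplicit false

/-!
# Invariant sets of the `3x+k` maps in sifted arithmetic progressions to all moduli

Let `k` be prime to `6`. The elements of an invariant set of the `3x+k` map (for example of the basin of
a cycle, or of the set of integers with eventually periodic orbit) in an arithmetic progression to
any modulus, sifted by any set of primes, moduli and primes up to a small power of the size of the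
integers, are counted by the local densities of the set modulo `k`, uniformly in the set. So the
invariant sets contain almost primes in progressions with a modulus that is a power of their size, and
the statement that all orbits are eventually periodic can be restricted to very sparse sets of almost
primes in progressions.

Method. Two numbers `x` and `x + k h` with `|h| ≤ 2 ^ (θ t)` have coalesced after `t` steps for most `x`
(starting files, Pool/Agent/H499R2/CO), also along sifted progressions (Pool/Agent/W41/Core). A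
progression with step `k R` is compared with a whole class modulo `k` by shifts by multiples of `k`;
the uniform convergence to the densities in the classes modulo `k` is Pool/Agent/W36/FD/FD5. The case
`k = 1` is MP_d02c56_nt.AlmostPrimesAllModuli.
-/

namespace Pool.Agent.Results.MP_7f88e4_nt.SiftedProgressions

open Filter Topology

/-- the `3x+k` map on the integers -/
def T (k x : ℤ) : ℤ := if x % 2 = 0 then x / 2 else (3 * x + k) / 2

/-- the orbit of `n` is eventually periodic -/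
def EvPer (k n : ℤ) : Prop := ∃ m p : ℕ, 1 ≤ p ∧ (T k)^[m + p] n = (T k)^[m] n

/-- `S` is invariant under the `3x+k` map and its inverse -/
def Invariant (k : ℤ) (S : Set ℤ) : Prop := ∀ x : ℤ, x ∈ S ↔ T k x ∈ S

/-- `a` and `b` agree modulo `k` up to a factor `2 ^ i * 3 ^ j`. -/
def Rel (k a b : ℤ) : Prop := ∃ i j : ℕ, a ≡ 2 ^ i * 3 ^ j * b [ZMOD k]

/-- Among the integers of sign `s` the set `S` has natural density `δ`. -/
def HasDensity (s : ℤ) (S : Set ℤ) (δ : ℝ) : Prop :=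
  Tendsto (fun N : ℕ => ({n : ℤ | 0 < s * n ∧ s * n ≤ N ∧ n ∈ S}.ncard : ℝ) / N) atTop (𝓝 δ)

/-- `φ` gives the densities of `S`, on the side `s`, relative to the classes modulo `k`: it has values
in `[0, 1]`, it depends only on the residue modulo `k` up to factors `2` and `3`, the elements of `S`
which are congruent to `a` modulo `k` have natural density `φ a / |k|` on the side `s`, and `φ a` is
positive if `S` has an element of sign `s` prime to `3` in a class related to that of `a`. -/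
def LocalDensity (k s : ℤ) (S : Set ℤ) (φ : ℤ → ℝ) : Prop :=
  (∀ a : ℤ, 0 ≤ φ a ∧ φ a ≤ 1) ∧ (∀ a b : ℤ, Rel k a b → φ a = φ b) ∧
  (∀ a : ℤ, Tendsto (fun N : ℕ => ({n : ℤ | 0 < s * n ∧ s * n ≤ N ∧ n ∈ S ∧ n ≡ a [ZMOD k]}.ncard : ℝ) / N)
    atTop (𝓝 (φ a / k.natAbs))) ∧
  (∀ a x : ℤ, x ∈ S → 0 < s * x → ¬ (3 : ℤ) ∣ x → Rel k a x → 0 < φ a)

/-- The integers `n ≡ a` mod `q` of sign `s` with `M < |n| ≤ N` that no element of `P` divides. -/
def Sifted (s : ℤ) (M N q : ℕ) (a : ℤ) (P : Set ℕ) : Set ℤ :=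
  {n : ℤ | (M : ℤ) < s * n ∧ s * n ≤ N ∧ n ≡ a [ZMOD q] ∧ ∀ p ∈ P, ¬ (p : ℤ) ∣ n}

/-! ### proofs -/

open Pool.Agent.W41 Pool.Agent.H499R2.ND Pool.Agent.W36.FD Pool.Agent.Helper82K9.GK

theorem dens_iff {k s : ℤ} (hs : s = 1 ∨ s = -1) {S : Set ℤ} {φ : ℤ → ℝ} :
    DD s S k.natAbs (fun c => φ c / (k.natAbs : ℝ)) ↔
    (∀ a : ℤ, Tendsto (fun N : ℕ => ({n : ℤ | 0 < s * n ∧ s * n ≤ N ∧ n ∈ S ∧ n ≡ a [ZMOD k]}.ncard : ℝ) / N)
      atTop (𝓝 (φ a / k.natAbs))) := by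
  have e1 : ∀ (a : ℤ) (N : ℕ), {n : ℤ | 0 < s * n ∧ s * n ≤ N ∧ n ∈ S ∧ n ≡ a [ZMOD k]}.ncard
      = cA s S k.natAbs a N := by
    intro a N
    rw [← cA_ncard hs]
    congr 1
    ext n
    have : n ≡ a [ZMOD k] ↔ n ≡ a [ZMOD (k.natAbs : ℤ)] := by
      rw [Int.modEq_iff_dvd, Int.modEq_iff_dvd, Int.natAbs_dvd]
    simp only [Set.mem_ofPred_eq, this]
  unfold DD
  simp only [e1]

theorem local_phi {k s : ℤ} (hs : s = 1 ∨ s = -1) {S : Set ℤ} {φ : ℤ → ℝ} (h : LocalDensity k s S φ) :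
    IsPhi k s S φ := ⟨h.1, h.2.1, (dens_iff hs).2 h.2.2.1⟩

theorem exists_local {k : ℤ} (hk : k % 6 = 1 ∨ k % 6 = 5) {s : ℤ} (hs : s = 1 ∨ s = -1) {S : Set ℤ}
    (hS : Invariant k S) : ∃ φ : ℤ → ℝ, LocalDensity k s S φ := by
  obtain ⟨φ, ⟨h1, h2, h3⟩, h4⟩ := exists_phi hk hs (S := S) hS
  exact ⟨φ, h1, h2, (dens_iff hs).1 h3, h4⟩

theorem omega_le {n : ℕ} (hn : n ≠ 0) {B : ℝ} (hB : 0 ≤ B) (h : ∀ p : ℕ, p.Prime → p ∣ n → B ≤ p) :
    B ^ (ArithmeticFunction.cardFactors n) ≤ n := by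
  rw [ArithmeticFunction.cardFactors_apply]
  have e : ((n.primeFactorsList.map (fun p : ℕ => (p : ℝ))).prod) = n := by
    have := Nat.prod_primeFactorsList hn
    rw [← Nat.cast_list_prod, this]
  rw [← e, ← List.length_map (fun p : ℕ => (p : ℝ))]
  have key : ∀ l : List ℝ, (∀ x ∈ l, B ≤ x) → B ^ l.length ≤ l.prod := by
    intro l
    induction l with
    | nil => intro _; simp
    | cons x l ih =>
      intro hl
      rw [List.length_cons, List.prod_cons, pow_succ, mul_comm]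
      exact mul_le_mul (hl x (by simp)) (ih fun y hy => hl y (by simp [hy])) (by positivity)
        (hB.trans (hl x (by simp)))
  apply key
  intro x hx
  rw [List.mem_map] at hx
  obtain ⟨p, hp, rfl⟩ := hx
  exact h p (Nat.prime_of_mem_primeFactorsList hp) (Nat.dvd_of_mem_primeFactorsList hp)

/-- splitting a number by a set of primes -/
theorem split_primes (Q : ℕ → Prop) : ∀ n : ℕ, n ≠ 0 → ∃ u v : ℕ, n = u * v ∧
    (∀ p : ℕ, p.Prime → p ∣ u → Q p) ∧ (∀ p : ℕ, p.Prime → p ∣ v → ¬ Q p) := by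
  intro n
  induction n using induction_on_primes with
  | zero => intro h; exact absurd rfl h
  | one => intro _; exact ⟨1, 1, rfl, fun p hp h => absurd (Nat.dvd_one.1 h) hp.one_lt.ne',
      fun p hp h => absurd (Nat.dvd_one.1 h) hp.one_lt.ne'⟩
  | prime_mul p a hp ih =>
    intro h
    obtain ⟨u, v, h1, h2, h3⟩ := ih (by rintro rfl; simp at h)
    by_cases hQ : Q p
    · refine ⟨p * u, v, by rw [h1]; ring, fun r hr hd => ?_, h3⟩
      rcases hr.dvd_mul.1 hd with h4 | h4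
      · rw [(Nat.prime_dvd_prime_iff_eq hr hp).1 h4]; exact hQ
      · exact h2 r hr h4
    · refine ⟨u, p * v, by rw [h1]; ring, h2, fun r hr hd => ?_⟩
      rcases hr.dvd_mul.1 hd with h4 | h4
      · rw [(Nat.prime_dvd_prime_iff_eq hr hp).1 h4]; exact hQ
      · exact h3 r hr h4

/-- almost primes -/
theorem almost_primes {k : ℤ} (hk : k % 6 = 1 ∨ k % 6 = 5) {s : ℤ} (hs : s = 1 ∨ s = -1) (S : Set ℤ)
    (hS : Invariant k S) (x₀ : ℤ) (hx : x₀ ∈ S) (hx0 : 0 < s * x₀) (hx3 : ¬ (3 : ℤ) ∣ x₀) :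
    ∃ A : ℕ, ∀ q : ℕ, 1 ≤ q → ∀ N : ℕ, A * q ^ A ≤ N → ∀ a : ℤ, Rel (Int.gcd q k) a x₀ →
      ∃ n ∈ S, (N : ℤ) < 2 * (s * n) ∧ s * n ≤ N ∧ n ≡ a [ZMOD q] ∧
        (∃ u v : ℕ, n.natAbs = u * v ∧ (∀ p : ℕ, p.Prime → p ∣ u → p ∣ q ∨ (p : ℤ) ∣ k) ∧
          ArithmeticFunction.cardFactors v ≤ A) ∧
        (IsCoprime a q → IsCoprime x₀ k → ArithmeticFunction.cardFactors n.natAbs ≤ A) := by
  obtain ⟨θ, hθ, N0, hN0, H⟩ := exists_eltD hk hs (S := S) hS hx hx0 hx3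
  obtain ⟨A1, hA1⟩ := exists_nat_ge (1 / θ)
  refine ⟨max A1 N0, fun q hq N hN a ha => ?_⟩
  set A := max A1 N0 with hA
  have hA2 : 2 ≤ A := le_trans hN0 (le_max_right _ _)
  have hqA : 1 ≤ q ^ A := Nat.one_le_pow _ _ hq
  have hNA : A ≤ N := le_trans (Nat.le_mul_of_pos_right _ hqA) hN
  have hN0N : N0 ≤ N := le_trans (le_max_right _ _) hNA
  have hNR : (2 : ℝ) ≤ N := by exact_mod_cast (by omega : 2 ≤ N)
  have hN1 : (0 : ℝ) < N := by linarith
  have hθA : 1 ≤ θ * A := by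
    have h1 : (A1 : ℝ) ≤ A := by exact_mod_cast le_max_left _ _
    have h2 := hA1.trans h1
    rw [div_le_iff₀ hθ] at h2
    linarith
  have hqN : (q : ℝ) ≤ (N : ℝ) ^ θ := by
    have h1 : (q : ℝ) ^ A ≤ N := by
      have : q ^ A ≤ N := le_trans (Nat.le_mul_of_pos_left _ (by omega)) hN
      exact_mod_cast this
    have h2 : (q : ℝ) ^ A ≤ ((N : ℝ) ^ θ) ^ A := by
      refine h1.trans ?_
      rw [← Real.rpow_natCast, ← Real.rpow_mul hN1.le]
      calc (N : ℝ) = (N : ℝ) ^ (1 : ℝ) := (Real.rpow_one _).symm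
        _ ≤ _ := Real.rpow_le_rpow_of_exponent_le (by linarith) hθA
    exact le_of_pow_le_pow_left₀ (by omega) (by positivity) h2
  set P : Finset ℕ := (Finset.range (⌊(N : ℝ) ^ θ⌋₊ + 1)).filter
    (fun p => p.Prime ∧ ¬ p ∣ q ∧ ¬ p ∣ k.natAbs) with hP
  obtain ⟨n, hnS, ⟨h1, h2, h3, h4⟩, hrel⟩ := H N hN0N (N / 2) (by omega) q hq hqN P (fun p hp => by
    rw [hP, Finset.mem_filter, Finset.mem_range] at hp
    refine ⟨hp.2.1, ?_, hp.2.2⟩
    have h1 : p ≤ ⌊(N : ℝ) ^ θ⌋₊ := by omega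
    exact (Nat.le_floor_iff (by positivity)).1 h1) a ha
  have hn0 : n ≠ 0 := by
    rintro rfl
    rw [mul_zero] at h1
    omega
  have hnN : (n.natAbs : ℝ) ≤ N := by
    have : (n.natAbs : ℤ) ≤ N := by
      rcases hs with rfl | rfl <;> omega
    exact_mod_cast this
  obtain ⟨u, v, huv, hu, hv⟩ := split_primes (fun p => p ∣ q ∨ (p : ℤ) ∣ k) n.natAbs (Int.natAbs_ne_zero.2 hn0)
  have hv0 : v ≠ 0 := by
    rintro rfl
    rw [mul_zero] at huv
    exact (Int.natAbs_ne_zero.2 hn0) huv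
  have hu0 : u ≠ 0 := by
    rintro rfl
    rw [zero_mul] at huv
    exact (Int.natAbs_ne_zero.2 hn0) huv
  have hvn : v ∣ n.natAbs := by rw [huv]; exact Dvd.intro_left _ rfl
  have hun : u ∣ n.natAbs := by rw [huv]; exact Dvd.intro _ rfl
  have hvN : (v : ℝ) ≤ N := by
    have h5 : v ≤ n.natAbs := Nat.le_of_dvd (Int.natAbs_pos.2 hn0) hvn
    exact le_trans (by exact_mod_cast h5) hnN
  have h5 : ((N : ℝ) ^ θ) ^ (ArithmeticFunction.cardFactors v) ≤ v := by
    apply omega_le hv0 (by positivity)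
    intro p hp hpv
    by_contra hcon
    push Not at hcon
    have hpn' : (p : ℤ) ∣ n := Int.natCast_dvd.2 (hpv.trans hvn)
    have hnot := hv p hp hpv
    push Not at hnot
    apply h4 p _ hpn'
    rw [Finset.mem_coe, hP, Finset.mem_filter, Finset.mem_range]
    exact ⟨Nat.lt_succ_of_le (Nat.le_floor hcon.le), hp, hnot.1, fun h => hnot.2 (Int.natCast_dvd.2 h)⟩
  have h6 : ((N : ℝ) ^ θ) ^ (ArithmeticFunction.cardFactors v) ≤ ((N : ℝ) ^ θ) ^ A := by
    refine (h5.trans hvN).trans ?_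
    rw [← Real.rpow_natCast, ← Real.rpow_mul hN1.le]
    calc (N : ℝ) = (N : ℝ) ^ (1 : ℝ) := (Real.rpow_one _).symm
      _ ≤ _ := Real.rpow_le_rpow_of_exponent_le (by linarith) hθA
  have h7 : ArithmeticFunction.cardFactors v ≤ A :=
    (pow_le_pow_iff_right₀ (Real.one_lt_rpow (by linarith) hθ)).1 h6
  refine ⟨n, hnS, by omega, h2, h3, ⟨u, v, huv, hu, h7⟩, fun hco hcok => ?_⟩
  have hu1 : u = 1 := by
    by_contra hne
    obtain ⟨p, hp, hpu⟩ := Nat.exists_prime_and_dvd hne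
    have hpn : (p : ℤ) ∣ n := Int.natCast_dvd.2 (hpu.trans hun)
    rcases hu p hp hpu with h8 | h8
    · have h9 : (p : ℤ) ∣ (q : ℤ) := by exact_mod_cast h8
      have h10 : (p : ℤ) ∣ a - n := h9.trans h3.dvd
      have h11 := dvd_add h10 hpn
      rw [sub_add_cancel] at h11
      have h12 := hco.isUnit_of_dvd' h11 h9
      have h13 := Int.isUnit_iff_natAbs_eq.1 h12
      simp at h13
      exact hp.one_lt.ne' h13
    · obtain ⟨i, j, hij⟩ := hrel
      have h9 : (p : ℤ) ∣ 2 ^ i * 3 ^ j * x₀ := by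
        have h10 : (p : ℤ) ∣ 2 ^ i * 3 ^ j * x₀ - n := h8.trans hij.dvd
        have h11 := dvd_add h10 hpn
        rwa [sub_add_cancel] at h11
      have hpi : Prime (p : ℤ) := Nat.prime_iff_prime_int.1 hp
      have h2k : ¬ (2 : ℤ) ∣ k := by omega
      have h3k : ¬ (3 : ℤ) ∣ k := by omega
      rcases hpi.dvd_or_dvd h9 with h10 | h10
      · rcases hpi.dvd_or_dvd h10 with h11 | h11
        · have h12 := hpi.dvd_of_dvd_pow h11
          have h13 : p ∣ 2 := by exact_mod_cast h12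
          rw [(Nat.prime_dvd_prime_iff_eq hp Nat.prime_two).1 h13] at h8
          exact h2k (by exact_mod_cast h8)
        · have h12 := hpi.dvd_of_dvd_pow h11
          have h13 : p ∣ 3 := by exact_mod_cast h12
          rw [(Nat.prime_dvd_prime_iff_eq hp Nat.prime_three).1 h13] at h8
          exact h3k (by exact_mod_cast h8)
      · have h12 := hcok.isUnit_of_dvd' h10 h8
        have h13 := Int.isUnit_iff_natAbs_eq.1 h12
        simp at h13
        exact hp.one_lt.ne' h13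
  rw [huv, hu1, one_mul]
  exact h7

/-- sparse sets -/
theorem sparse {k : ℤ} (hk : k % 6 = 1 ∨ k % 6 = 5) {s : ℤ} (hs : s = 1 ∨ s = -1) (ψ : ℕ → ℝ) (q : ℕ → ℕ)
    (a : ℕ → ℤ) (hψ : Tendsto ψ atTop (𝓝 0)) (hq : ∀ j, 1 ≤ q j ∧ (q j : ℝ) ≤ (2 : ℝ) ^ (ψ j * j)) (S : Set ℤ)
    (hS : Invariant k S) (x₀ : ℤ) (hx0 : 0 < s * x₀) (hx3 : ¬ (3 : ℤ) ∣ x₀)
    (hfreq : ∃ᶠ j in atTop, Rel (Int.gcd (q j) k) (a j) x₀ ∧
      ∀ x : ℤ, (2 : ℤ) ^ j < s * x → s * x ≤ 2 ^ (j + 1) → x ≡ a j [ZMOD q j] →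
      (∀ p : ℕ, p.Prime → (p : ℤ) ∣ x → ¬ p ∣ q j → ¬ (p : ℤ) ∣ k → (2 : ℝ) ^ (ψ j * j) < p) → x ∈ S) :
    x₀ ∈ S := by
  by_contra hx
  have hSc : Inv k Sᶜ := fun x => not_congr (hS x)
  obtain ⟨θ, hθ, N0, hN0, H⟩ := exists_eltD hk hs hSc hx hx0 hx3
  have hev : ∀ᶠ j : ℕ in atTop, ψ j ≤ θ ∧ N0 ≤ j :=
    ((hψ.eventually (gt_mem_nhds hθ)).mono fun _ h => h.le).and (eventually_ge_atTop N0)
  obtain ⟨j, ⟨hrel, hj⟩, hψj, hNj⟩ := (hfreq.and_eventually hev).exists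
  have h2j : j < 2 ^ j := Nat.lt_two_pow_self
  have hle : (2 : ℝ) ^ (ψ j * j) ≤ ((2 ^ (j + 1) : ℕ) : ℝ) ^ θ := by
    push_cast
    rw [← Real.rpow_natCast, ← Real.rpow_mul (by norm_num)]
    apply Real.rpow_le_rpow_of_exponent_le (by norm_num)
    push_cast
    have h1 : ψ j * j ≤ θ * j := mul_le_mul_of_nonneg_right hψj (Nat.cast_nonneg _)
    nlinarith
  set P : Finset ℕ := (Finset.range (⌊(2 : ℝ) ^ (ψ j * j)⌋₊ + 1)).filter
    (fun p => p.Prime ∧ ¬ p ∣ q j ∧ ¬ p ∣ k.natAbs) with hP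
  obtain ⟨n, hnS, ⟨h1, h2, h3, h4⟩, -⟩ := H (2 ^ (j + 1)) (by rw [pow_succ]; omega) (2 ^ j) (by rw [pow_succ]; omega)
    (q j) (hq j).1 ((hq j).2.trans hle) P (fun p hp => by
    rw [hP, Finset.mem_filter, Finset.mem_range] at hp
    refine ⟨hp.2.1, ?_, hp.2.2⟩
    have h1 : p ≤ ⌊(2 : ℝ) ^ (ψ j * j)⌋₊ := by omega
    exact ((Nat.le_floor_iff (by positivity)).1 h1).trans hle) (a j) hrel
  apply hnS
  push_cast at h1 h2
  refine hj n h1 h2 h3 fun p hp hpn hpq hpk => ?_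
  by_contra hcon
  push Not at hcon
  apply h4 p _ hpn
  rw [Finset.mem_coe, hP, Finset.mem_filter, Finset.mem_range]
  exact ⟨Nat.lt_succ_of_le (Nat.le_floor hcon), hp, hpq, fun h => hpk (Int.natCast_dvd.2 h)⟩

theorem evper_inv (k : ℤ) : Invariant k {n | EvPer k n} := by
  intro x
  constructor
  · rintro ⟨m, p, hp, h⟩
    refine ⟨m, p, hp, ?_⟩
    rw [← Function.iterate_succ_apply, ← Function.iterate_succ_apply,
      Function.iterate_succ_apply', Function.iterate_succ_apply', h]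
  · rintro ⟨m, p, hp, h⟩
    refine ⟨m + 1, p, hp, ?_⟩
    rw [← Function.iterate_succ_apply, ← Function.iterate_succ_apply] at h
    rw [show m + 1 + p = (m + p).succ by omega]
    exact h

/-- every nonzero orbit reaches a nonzero number prime to `3` -/
theorem reaches_cop {k : ℤ} (hk : k % 6 = 1 ∨ k % 6 = 5) {x : ℤ} (hx : x ≠ 0) :
    ∃ j : ℕ, (T k)^[j] x ≠ 0 ∧ ¬ (3 : ℤ) ∣ (T k)^[j] x := by
  obtain ⟨e, y, hy, hxy⟩ : ∃ (e : ℕ) (y : ℤ), y % 2 = 1 ∧ x = 2 ^ e * y := by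
    obtain ⟨n, hn⟩ : ∃ n : ℕ, n = x.natAbs := ⟨_, rfl⟩
    induction n using Nat.strong_induction_on generalizing x with
    | _ n ih =>
      rcases Int.emod_two_eq_zero_or_one x with h | h
      · obtain ⟨e, y, hy, hxy⟩ := ih (x / 2).natAbs (by omega) (x := x / 2) (by omega) rfl
        refine ⟨e + 1, y, hy, ?_⟩
        have : x = 2 * (x / 2) := by omega
        rw [this, hxy, pow_succ]
        ring
      · exact ⟨0, x, h, by simp⟩
  refine ⟨e + 1, ?_⟩
  have h1 : (T k)^[e] x = y := by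
    rw [hxy]
    exact Td_two_pow k e y
  rw [Function.iterate_succ_apply', h1]
  unfold T
  rw [if_neg (by omega)]
  have h2 : 2 * ((3 * y + k) / 2) = 3 * y + k := by omega
  constructor <;> omega

/-- Let `k` be congruent to `1` or `5` modulo `6`.
(A) On each side `s` (`s = 1`: positive, `s = -1`: negative integers) the following holds.
(1) Every invariant set of the `3x+k` map has a local density `φ`, a function of the residue modulo `k`
which does not change when the residue is multiplied by `2` or `3`.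
(2) For every `ε > 0` there are `θ > 0` and `N₀` such that for all invariant sets `S` with local density
`φ`, all `M ≤ N`, `N ≥ N₀`, all moduli `q ≤ N ^ θ`, all sets `P` of primes `p ≤ N ^ θ` and all `a`, the
number of the elements of `S` among the integers `n ≡ a` mod `q` of sign `s` with `M < |n| ≤ N` and no
prime factor in `P` is the sum of the `φ n` over all these integers, up to `ε` times the number of those
with `|n| ≤ N`.
(3) If `q` is prime to `k` and `P` contains no prime factor of `k`, it is the natural density `δ` of `S`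
times the number of these integers, with the same error.
(4) Let `x₀` be an element of `S` of sign `s` and prime to `3`. There is `A` such that for all `q`, all
`N ≥ A q ^ A` and all `a` which agree with `x₀` modulo the greatest common divisor of `q` and `k` up
to factors `2` and `3`, some `n ∈ S` of sign `s` has `N / 2 < |n| ≤ N` and `n ≡ a` mod `q`, and is a
product of a number with prime factors dividing `q` or `k` only and of at most `A` primes; if `a` is prime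
to `q` and `x₀` prime to `k` then `n` is a product of at most `A` primes.
(5) Let `ψ` tend to `0`, let `q j ≤ 2 ^ (ψ j * j)`, and let `x₀` be an integer of sign `s` prime to `3`.
Suppose that for infinitely many `j` the number `a j` agrees with `x₀` modulo the greatest common divisor
of `q j` and `k` up to factors `2` and `3`, and `S` contains all integers `x ≡ a j` mod `q j` of sign `s`
with `2 ^ j < |x| ≤ 2 ^ (j + 1)` such that all prime factors of `x` that divide neither `q j` nor `k`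
exceed `2 ^ (ψ j * j)`. Then `S` contains `x₀`.
(B) Let `ψ` tend to `0`, let `q j ≤ 2 ^ (ψ j * j)` be prime to `k`, and suppose that for infinitely many
`j` all integers `x ≡ a j` mod `q j` with `2 ^ j < |x| ≤ 2 ^ (j + 1)` such that all prime factors of `x` that
divide neither `q j` nor `k` exceed `2 ^ (ψ j * j)` have eventually periodic orbits. Then all orbits of
the `3x+k` map are eventually periodic. -/
theorem result (k : ℤ) (hk : k % 6 = 1 ∨ k % 6 = 5) :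
    (∀ s : ℤ, (s = 1 ∨ s = -1) →
      (∀ S : Set ℤ, Invariant k S → ∃ φ : ℤ → ℝ, LocalDensity k s S φ) ∧
      (∀ ε : ℝ, 0 < ε → ∃ θ : ℝ, 0 < θ ∧ ∃ N₀ : ℕ, ∀ S : Set ℤ, Invariant k S →
        ∀ φ : ℤ → ℝ, LocalDensity k s S φ →
        ∀ N : ℕ, N₀ ≤ N → ∀ M : ℕ, M ≤ N → ∀ q : ℕ, 1 ≤ q → (q : ℝ) ≤ (N : ℝ) ^ θ →
        ∀ P : Set ℕ, (∀ p ∈ P, p.Prime ∧ (p : ℝ) ≤ (N : ℝ) ^ θ) → ∀ a : ℤ,
          |((S ∩ Sifted s M N q a P).ncard : ℝ) - ∑ᶠ n ∈ Sifted s M N q a P, φ n|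
            ≤ ε * (Sifted s 0 N q a P).ncard) ∧
      (∀ ε : ℝ, 0 < ε → ∃ θ : ℝ, 0 < θ ∧ ∃ N₀ : ℕ, ∀ S : Set ℤ, Invariant k S → ∃ δ : ℝ, HasDensity s S δ ∧
        ∀ N : ℕ, N₀ ≤ N → ∀ M : ℕ, M ≤ N → ∀ q : ℕ, 1 ≤ q → (q : ℝ) ≤ (N : ℝ) ^ θ → IsCoprime (q : ℤ) k →
        ∀ P : Set ℕ, (∀ p ∈ P, p.Prime ∧ (p : ℝ) ≤ (N : ℝ) ^ θ ∧ ¬ (p : ℤ) ∣ k) → ∀ a : ℤ,
          |((S ∩ Sifted s M N q a P).ncard : ℝ) - δ * (Sifted s M N q a P).ncard|
            ≤ ε * (Sifted s 0 N q a P).ncard) ∧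
      (∀ S : Set ℤ, Invariant k S → ∀ x₀ ∈ S, 0 < s * x₀ → ¬ (3 : ℤ) ∣ x₀ →
        ∃ A : ℕ, ∀ q : ℕ, 1 ≤ q → ∀ N : ℕ, A * q ^ A ≤ N → ∀ a : ℤ, Rel (Int.gcd q k) a x₀ →
          ∃ n ∈ S, (N : ℤ) < 2 * (s * n) ∧ s * n ≤ N ∧ n ≡ a [ZMOD q] ∧
            (∃ u v : ℕ, n.natAbs = u * v ∧ (∀ p : ℕ, p.Prime → p ∣ u → p ∣ q ∨ (p : ℤ) ∣ k) ∧
              ArithmeticFunction.cardFactors v ≤ A) ∧
            (IsCoprime a q → IsCoprime x₀ k → ArithmeticFunction.cardFactors n.natAbs ≤ A)) ∧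
      (∀ (ψ : ℕ → ℝ) (q : ℕ → ℕ) (a : ℕ → ℤ), Tendsto ψ atTop (𝓝 0) →
        (∀ j, 1 ≤ q j ∧ (q j : ℝ) ≤ (2 : ℝ) ^ (ψ j * j)) → ∀ S : Set ℤ, Invariant k S →
        ∀ x₀ : ℤ, 0 < s * x₀ → ¬ (3 : ℤ) ∣ x₀ →
        (∃ᶠ j in atTop, Rel (Int.gcd (q j) k) (a j) x₀ ∧
          ∀ x : ℤ, (2 : ℤ) ^ j < s * x → s * x ≤ 2 ^ (j + 1) → x ≡ a j [ZMOD q j] →
          (∀ p : ℕ, p.Prime → (p : ℤ) ∣ x → ¬ p ∣ q j → ¬ (p : ℤ) ∣ k → (2 : ℝ) ^ (ψ j * j) < p) → x ∈ S) →
        x₀ ∈ S)) ∧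
    (∀ (ψ : ℕ → ℝ) (q : ℕ → ℕ) (a : ℕ → ℤ), Tendsto ψ atTop (𝓝 0) →
      (∀ j, 1 ≤ q j ∧ IsCoprime (q j : ℤ) k ∧ (q j : ℝ) ≤ (2 : ℝ) ^ (ψ j * j)) →
      (∃ᶠ j in atTop, ∀ x : ℤ, (2 : ℤ) ^ j < |x| → |x| ≤ 2 ^ (j + 1) → x ≡ a j [ZMOD q j] →
        (∀ p : ℕ, p.Prime → (p : ℤ) ∣ x → ¬ p ∣ q j → ¬ (p : ℤ) ∣ k → (2 : ℝ) ^ (ψ j * j) < p) → EvPer k x) →
      ∀ x : ℤ, EvPer k x) := by
  have hodd : Odd k := Int.odd_iff.2 (by omega)
  have hk3 : ¬ (3 : ℤ) ∣ k := by omega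
  refine ⟨fun s hs => ⟨fun S hS => exists_local hk hs hS, ?_, ?_,
    fun S hS x₀ hx hx0 hx3 => almost_primes hk hs S hS x₀ hx hx0 hx3, ?_⟩, ?_⟩
  · intro ε hε
    obtain ⟨θ, hθ, N0, H⟩ := all_mod hk hs hε
    exact ⟨θ, hθ, N0, fun S hS φ hφ N hN M hMN q hq hqN P hP a =>
      H S hS φ (local_phi hs hφ) N hN M hMN q hq hqN P hP a⟩
  · intro ε hε
    obtain ⟨θ, hθ, N0, H⟩ := coprime_mod hk hs hε
    refine ⟨θ, hθ, N0, fun S hS => ?_⟩
    obtain ⟨δ, -, -, hδ⟩ := dens_side hodd (cop_of_not_dvd hk3) hs (S := S) hS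
    refine ⟨δ, HD_ncard hs hδ, fun N hN M hMN q hq hqN hco P hP a => ?_⟩
    refine H S hS δ hδ N hN M hMN q hq hqN ?_ P (fun p hp => ⟨(hP p hp).1, (hP p hp).2.1, fun h =>
      (hP p hp).2.2 (Int.natCast_dvd.2 h)⟩) a
    have h1 := Int.isCoprime_iff_gcd_eq_one.1 hco
    rw [Int.gcd_eq_natAbs, Int.natAbs_natCast] at h1
    exact h1
  · intro ψ q a hψ hq S hS x₀ hx0 hx3 hfreq
    exact sparse hk hs ψ q a hψ hq S hS x₀ hx0 hx3 hfreq
  · intro ψ q a hψ hq hfreq x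
    have key : ∀ x : ℤ, x ≠ 0 → ¬ (3 : ℤ) ∣ x → EvPer k x := by
      intro x hx hx3
      have hrel : ∀ j, Rel (Int.gcd (q j) k) (a j) x := by
        intro j
        have h1 := Int.isCoprime_iff_gcd_eq_one.1 (hq j).2.1
        refine ⟨0, 0, ?_⟩
        rw [h1]
        exact Int.modEq_one
      rcases lt_or_gt_of_ne hx with h0 | h0
      · refine sparse hk (Or.inr rfl) ψ q a hψ (fun j => ⟨(hq j).1, (hq j).2.2⟩) {x | EvPer k x} (evper_inv k) x
          (by omega) hx3 (hfreq.mono fun j hj => ⟨hrel j, fun y h1 h2 h3 h4 => hj y ?_ ?_ h3 h4⟩)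
        · have hpos : (0 : ℤ) < 2 ^ j := by positivity
          rw [abs_of_neg (by omega)]; omega
        · have hpos : (0 : ℤ) < 2 ^ j := by positivity
          rw [abs_of_neg (by omega)]; omega
      · refine sparse hk (Or.inl rfl) ψ q a hψ (fun j => ⟨(hq j).1, (hq j).2.2⟩) {x | EvPer k x} (evper_inv k) x
          (by omega) hx3 (hfreq.mono fun j hj => ⟨hrel j, fun y h1 h2 h3 h4 => hj y ?_ ?_ h3 h4⟩)
        · have hpos : (0 : ℤ) < 2 ^ j := by positivity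
          rw [abs_of_pos (by omega)]; omega
        · have hpos : (0 : ℤ) < 2 ^ j := by positivity
          rw [abs_of_pos (by omega)]; omega
    rcases eq_or_ne x 0 with rfl | hx
    · refine ⟨0, 1, le_rfl, ?_⟩
      simp [T]
    · obtain ⟨j, h1, h2⟩ := reaches_cop hk hx
      have h3 := key _ h1 h2
      exact (inv_iter (S := {x | EvPer k x}) (evper_inv k) j x).2 h3

end Pool.Agent.Results.MP_7f88e4_nt.SiftedProgressions
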